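import Mathlib

/-!
A Chinese remainder theorem for finitely many normal subgroups with nonabelian simple quotients,
inside the derived subgroup.
-/

namespace Pool.Agent.W_MP_73c65d_al.Crt27

open scoped commutatorElement

variable {F : Type*} [Group F]

/-- A normal subgroup with a nonabelian simple quotient, said with elements. -/
structure Top (K : Subgroup F) : Prop where
  nor : K.Normal
  max : ∀ H : Subgroup F, H.Normal → K ≤ H → H = K ∨ H = ⊤
  com : ∀ a, a ∉ K → ∀ b, b ∉ K → ∃ g, ⁅a, g * b * g⁻¹⁆ ∉ K
  ne : K ≠ ⊤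

theorem center_simple {G : Type*} [Group G] [IsSimpleGroup G] (hc : ¬ ∀ a b : G, a * b = b * a) :
    Subgroup.center G = ⊥ := by
  rcases (inferInstance : (Subgroup.center G).Normal).eq_bot_or_eq_top with h | h
  · exact h
  · refine absurd (fun a b => ?_) hc
    have ha : a ∈ Subgroup.center G := by
      rw [h]
      trivial
    exact ((Subgroup.mem_center_iff.1 ha) b).symm

theorem comm_simple {G : Type*} [Group G] [IsSimpleGroup G] (hc : ¬ ∀ a b : G, a * b = b * a)
    {a b : G} (ha : a ≠ 1) (hb : b ≠ 1) : ∃ g : G, ⁅a, g * b * g⁻¹⁆ ≠ 1 := by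
  by_contra hcon
  push Not at hcon
  have h1 : Subgroup.normalClosure {b} = ⊤ := by
    rcases (inferInstance : (Subgroup.normalClosure {b}).Normal).eq_bot_or_eq_top with h | h
    · refine absurd ?_ hb
      have : b ∈ Subgroup.normalClosure {b} := Subgroup.subset_normalClosure rfl
      rw [h] at this
      exact Subgroup.mem_bot.1 this
    · exact h
  have h2 : Subgroup.normalClosure {b} ≤ Subgroup.centralizer {a} := by
    unfold Subgroup.normalClosure
    rw [Subgroup.closure_le]
    intro c hcc
    rw [Group.mem_conjugatesOfSet_iff] at hcc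
    obtain ⟨b', hb', hcc⟩ := hcc
    rw [Set.mem_singleton_iff] at hb'
    subst hb'
    obtain ⟨g, hg⟩ := isConj_iff.1 hcc
    have h3 := hcon g
    rw [hg, commutatorElement_eq_one_iff_mul_comm] at h3
    rw [SetLike.mem_coe, Subgroup.mem_centralizer_iff]
    intro x hx
    rw [Set.mem_singleton_iff] at hx
    rw [hx]
    exact h3
  have h4 : a ∈ Subgroup.center G := by
    rw [Subgroup.mem_center_iff]
    intro g
    have hg : g ∈ Subgroup.centralizer {a} := h2 (by rw [h1]; trivial)
    exact ((Subgroup.mem_centralizer_iff.1 hg) a rfl).symm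
  rw [center_simple hc] at h4
  exact ha (Subgroup.mem_bot.1 h4)

theorem top_ker {G : Type*} [Group G] [IsSimpleGroup G] (hc : ¬ ∀ a b : G, a * b = b * a)
    {φ : F →* G} (hφ : Function.Surjective φ) : Top φ.ker where
  nor := inferInstance
  max := by
    intro H hH hle
    have := hH
    have hm : (H.map φ).Normal := Subgroup.Normal.map hH φ hφ
    rcases hm.eq_bot_or_eq_top with h | h
    · left
      refine le_antisymm ?_ hle
      intro x hx
      have : φ x ∈ H.map φ := Subgroup.mem_map_of_mem φ hx
      rw [h] at this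
      exact Subgroup.mem_bot.1 this
    · right
      rw [eq_top_iff]
      intro x _
      have h1 : φ x ∈ H.map φ := by
        rw [h]
        trivial
      obtain ⟨y, hy, hxy⟩ := h1
      have h2 : y⁻¹ * x ∈ φ.ker := by
        rw [MonoidHom.mem_ker, map_mul, map_inv, hxy, inv_mul_cancel]
      have h3 : y * (y⁻¹ * x) ∈ H := H.mul_mem hy (hle h2)
      rwa [mul_inv_cancel_left] at h3
  com := by
    intro a ha b hb
    obtain ⟨g, hg⟩ := comm_simple hc (a := φ a) (b := φ b) (fun h => ha (MonoidHom.mem_ker.2 h))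
      (fun h => hb (MonoidHom.mem_ker.2 h))
    obtain ⟨g', rfl⟩ := hφ g
    refine ⟨g', fun h => hg ?_⟩
    rw [MonoidHom.mem_ker, map_commutatorElement, map_mul, map_mul, map_inv] at h
    exact h
  ne := by
    intro h
    obtain ⟨x, hx⟩ := exists_ne (1 : G)
    obtain ⟨y, rfl⟩ := hφ x
    have : y ∈ φ.ker := by
      rw [h]
      trivial
    exact hx this

/-- One kernel against finitely many others. -/
theorem sep {K : Subgroup F} (hK : Top K) (s : Finset (Subgroup F)) (hs : ∀ H ∈ s, Top H)
    (hne : K ∉ s) : ∃ w ∈ commutator F, w ∉ K ∧ ∀ H ∈ s, w ∈ H := by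
  classical
  induction s using Finset.induction_on with
  | empty =>
    obtain ⟨a, ha⟩ : ∃ a, a ∉ K := by
      by_contra h
      push Not at h
      exact hK.ne (eq_top_iff.2 fun x _ => h x)
    obtain ⟨g, hg⟩ := hK.com a ha a ha
    exact ⟨_, Subgroup.commutator_mem_commutator (Subgroup.mem_top _) (Subgroup.mem_top _), hg,
      by simp⟩
  | insert H s hHs ih =>
    obtain ⟨w, hwc, hwK, hws⟩ := ih (fun H' h' => hs H' (Finset.mem_insert_of_mem h'))
      (fun h => hne (Finset.mem_insert_of_mem h))
    have hH := hs H (Finset.mem_insert_self H s)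
    have hKH : K ≠ H := fun h => hne (h ▸ Finset.mem_insert_self H s)
    obtain ⟨b, hbH, hbK⟩ : ∃ b ∈ H, b ∉ K := by
      by_contra h
      push Not at h
      rcases hH.max K hK.nor h with h1 | h1
      · exact hKH h1
      · exact hK.ne h1
    obtain ⟨g, hg⟩ := hK.com w hwK b hbK
    have := hH.nor
    refine ⟨_, Subgroup.commutator_mem_commutator (Subgroup.mem_top _) (Subgroup.mem_top _), hg,
      fun H' h' => ?_⟩
    rcases Finset.mem_insert.1 h' with rfl | h'
    · have h1 : g * b * g⁻¹ ∈ H' := hH.nor.conj_mem b hbH g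
      rw [commutatorElement_def]
      exact H'.mul_mem (hH.nor.conj_mem _ h1 w) (H'.inv_mem h1)
    · have h1 := hws H' h'
      have hn := (hs H' (Finset.mem_insert_of_mem h')).nor
      have h2 : ⁅w, g * b * g⁻¹⁆ = w * ((g * b * g⁻¹) * w⁻¹ * (g * b * g⁻¹)⁻¹) := by
        rw [commutatorElement_def]
        group
      rw [h2]
      exact H'.mul_mem h1 (hn.conj_mem _ (H'.inv_mem h1) _)

/-- **The Chinese remainder theorem** in the derived subgroup. -/
theorem crt (τ : Subgroup F → F) (s : Finset (Subgroup F)) (hs : ∀ H ∈ s, Top H) :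
    ∃ u ∈ commutator F, ∀ H ∈ s, (τ H)⁻¹ * u ∈ H := by
  classical
  induction s using Finset.induction_on with
  | empty => exact ⟨1, one_mem _, by simp⟩
  | insert K s hKs ih =>
    obtain ⟨u, huc, hus⟩ := ih (fun H' h' => hs H' (Finset.mem_insert_of_mem h'))
    have hK := hs K (Finset.mem_insert_self K s)
    obtain ⟨w, hwc, hwK, hws⟩ := sep hK s (fun H' h' => hs H' (Finset.mem_insert_of_mem h')) hKs
    have := hK.nor
    let N : Subgroup F := Subgroup.normalClosure {w}
    have hNc : N ≤ commutator F := Subgroup.normalClosure_le_normal (by simpa using hwc)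
    have hNs : ∀ H ∈ s, N ≤ H := fun H hH => by
      have := (hs H (Finset.mem_insert_of_mem hH)).nor
      exact Subgroup.normalClosure_le_normal (by simpa using hws H hH)
    have hsup : N ⊔ K = ⊤ := by
      rcases hK.max (N ⊔ K) inferInstance le_sup_right with h | h
      · exact absurd ((le_of_le_of_eq le_sup_left h) (Subgroup.subset_normalClosure rfl)) hwK
      · exact h
    have hmem : u⁻¹ * τ K ∈ N ⊔ K := by
      rw [hsup]
      trivial
    obtain ⟨v, hv, k, hk, hvk⟩ := (Subgroup.mem_sup_of_normal_right).1 hmem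
    refine ⟨u * v, (commutator F).mul_mem huc (hNc hv), fun H hH => ?_⟩
    rcases Finset.mem_insert.1 hH with rfl | hH
    · have h1 : (τ H)⁻¹ * (u * v) = k⁻¹ := by
        have h2 : v = u⁻¹ * τ H * k⁻¹ := by
          rw [← hvk]
          group
        rw [h2]
        group
      rw [h1]
      exact H.inv_mem hk
    · have h1 := hus H hH
      have h2 : (τ H)⁻¹ * (u * v) = (τ H)⁻¹ * u * v := by group
      rw [h2]
      exact H.mul_mem h1 (hNs H hH hv)

end Pool.Agent.W_MP_73c65d_al.Crt27
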