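import Mathlib

namespace Pool.Agent.W_MP_73c65d_al

/-- The free group on the three letters `x = of 0`, `y = of 1`, `z = of 2`. -/
abbrev F : Type := FreeGroup (Fin 3)

/-- `n` is admissible for `p, q, r` and the word `u`: `n ≥ 3` and the alternating group `A_n` is
generated by `ξ, η, ζ` with `ξ^p = η^q = ζ^r = ξηζ·u(ξ,η,ζ) = 1`. -/
def Admissible (p q r : ℕ) (u : F) (n : ℕ) : Prop :=
  3 ≤ n ∧ ∃ ξ η ζ : alternatingGroup (Fin n),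
    Subgroup.closure {ξ, η, ζ} = ⊤ ∧ ξ ^ p = 1 ∧ η ^ q = 1 ∧ ζ ^ r = 1 ∧
      ξ * η * ζ * FreeGroup.lift ![ξ, η, ζ] u = 1

/-- The word `xyz`. -/
def xyz : F := FreeGroup.of 0 * FreeGroup.of 1 * FreeGroup.of 2

/-- For `b` in the free group the commutator word `u_b = [b⁻¹a⁻¹b, a⁻¹]`, where `a = xyz` and
`[g,h] = g h g⁻¹ h⁻¹`. -/
def word (b : F) : F :=
  (b⁻¹ * xyz⁻¹ * b) * xyz⁻¹ * (b⁻¹ * xyz⁻¹ * b)⁻¹ * xyz

end Pool.Agent.W_MP_73c65d_al
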