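import Pool.Agent.W_MP_73c65d_al.DefsW27

/-!
Proportions of commutator words.
-/

namespace Pool.Agent.W_MP_73c65d_al

/-- `P` holds for a proportion at least `c` of the commutator words: there are a normal subgroup
`M` of finite index in `F` and a set `U` of cosets of `M ∩ [F,F]` in `[F,F]`, at least `c` times
the number of all these cosets, such that `P` holds for every word of a coset in `U`. -/
def AtLeast (c : ℝ) (P : F → Prop) : Prop :=
  ∃ M : Subgroup F, M.Normal ∧ M.FiniteIndex ∧
    ∃ U : Set (commutator F ⧸ M.subgroupOf (commutator F)),
      c * Nat.card (commutator F ⧸ M.subgroupOf (commutator F)) ≤ Nat.card U ∧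
      ∀ w : commutator F,
        (QuotientGroup.mk w : commutator F ⧸ M.subgroupOf (commutator F)) ∈ U → P w

end Pool.Agent.W_MP_73c65d_al
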