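import Pool.Agent.W_MP_73c65d_al.Defs

/-!
Generation and quotients for the group `⟨x, y, z | x^p, y^q, z^r, xyz u⟩`.
-/

namespace Pool.Agent.W_MP_73c65d_al

/-- `G` is generated by `ξ, η, ζ` with `ξ^p = η^q = ζ^r = 1`. -/
def Generated (p q r : ℕ) (G : Type*) [Group G] : Prop :=
  ∃ ξ η ζ : G, Subgroup.closure {ξ, η, ζ} = ⊤ ∧ ξ ^ p = 1 ∧ η ^ q = 1 ∧ ζ ^ r = 1

/-- `G` is generated by `ξ, η, ζ` with `ξ^p = η^q = ζ^r = ξηζ·u(ξ,η,ζ) = 1`, i.e. `G` is a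
quotient of the group `⟨x, y, z | x^p, y^q, z^r, xyz u(x,y,z)⟩`. -/
def IsQuotient (p q r : ℕ) (u : F) (G : Type*) [Group G] : Prop :=
  ∃ ξ η ζ : G, Subgroup.closure {ξ, η, ζ} = ⊤ ∧ ξ ^ p = 1 ∧ η ^ q = 1 ∧ ζ ^ r = 1 ∧
    ξ * η * ζ * FreeGroup.lift ![ξ, η, ζ] u = 1

end Pool.Agent.W_MP_73c65d_al
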