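import Mathlib

namespace Pool.Agent.W_MP_73c65d_al

section Icosa

variable {G : Type*} [Group G] {x c : G}

theorem R1 (hx : x * x = 1) (h : (x * c) ^ 3 = 1) : x * c * x = c⁻¹ * x * c⁻¹ := by
  have hxi : x⁻¹ = x := inv_eq_of_mul_eq_one_left hx
  have h2 : (x * c * x) * (c * x * c) = 1 := by
    rw [← h]; simp only [pow_succ, pow_zero, one_mul, mul_assoc]
  have h3 : x * c * x = (c * x * c)⁻¹ := eq_inv_of_mul_eq_one_left h2
  rw [h3, mul_inv_rev, mul_inv_rev, hxi, mul_assoc]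

theorem R1' (hx : x * x = 1) (h : (x * c) ^ 3 = 1) : x * c⁻¹ * x = c * x * c := by
  have hxi : x⁻¹ = x := inv_eq_of_mul_eq_one_left hx
  have h1 := congrArg (·⁻¹) (R1 hx h)
  simpa [mul_inv_rev, hxi, mul_assoc] using h1

theorem R2 (hx : x * x = 1) (h : (x * c) ^ 3 = 1) :
    x * c ^ (2 : ℤ) * x = c⁻¹ * x * c ^ (-2 : ℤ) * x * c⁻¹ := by
  have hxi : x⁻¹ = x := inv_eq_of_mul_eq_one_left hx
  calc x * c ^ (2 : ℤ) * x = (x * c * x⁻¹) * (x * c * x) := by rw [zpow_two]; group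
    _ = (x * c * x) * (x * c * x) := by rw [hxi]
    _ = c⁻¹ * x * c ^ (-2 : ℤ) * x * c⁻¹ := by
      rw [R1 hx h]
      group

theorem R2' (hx : x * x = 1) (h : (x * c) ^ 3 = 1) :
    x * c ^ (-2 : ℤ) * x = c * x * c ^ (2 : ℤ) * x * c := by
  have hxi : x⁻¹ = x := inv_eq_of_mul_eq_one_left hx
  calc x * c ^ (-2 : ℤ) * x = (x * c⁻¹ * x⁻¹) * (x * c⁻¹ * x) := by group
    _ = (x * c⁻¹ * x) * (x * c⁻¹ * x) := by rw [hxi]
    _ = c * x * c ^ (2 : ℤ) * x * c := by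
      rw [R1' hx h, zpow_two]
      group

theorem R3 (hx : x * x = 1) (h : (x * c) ^ 3 = 1) (h5 : c ^ 5 = 1) :
    x * c ^ (2 : ℤ) * x * c ^ (2 : ℤ) * x = c⁻¹ * (x * c ^ (2 : ℤ) * x) * c⁻¹ := by
  have e1 : c ^ (-3 : ℤ) = c ^ (2 : ℤ) := by
    have : c ^ (5 : ℤ) = 1 := by exact_mod_cast h5
    calc c ^ (-3 : ℤ) = c ^ (5 : ℤ) * c ^ (-3 : ℤ) := by rw [this, one_mul]
      _ = c ^ (2 : ℤ) := by group
  calc x * c ^ (2 : ℤ) * x * c ^ (2 : ℤ) * x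
      = (c⁻¹ * x * c ^ (-2 : ℤ) * x * c⁻¹) * c ^ (2 : ℤ) * x := by rw [R2 hx h]
    _ = c⁻¹ * x * c ^ (-2 : ℤ) * (x * c * x) := by group
    _ = c⁻¹ * x * c ^ (-2 : ℤ) * (c⁻¹ * x * c⁻¹) := by rw [R1 hx h]
    _ = c⁻¹ * x * c ^ (-3 : ℤ) * x * c⁻¹ := by group
    _ = c⁻¹ * (x * c ^ (2 : ℤ) * x) * c⁻¹ := by rw [e1]; group

/-- the element normalising `⟨c⟩` -/
def W (x c : G) : G := x * c ^ (2 : ℤ) * x * c ^ (-2 : ℤ) * x

theorem W_mul_c (hx : x * x = 1) (h : (x * c) ^ 3 = 1) (h5 : c ^ 5 = 1) :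
    W x c * c = c⁻¹ * W x c := by
  have e5 : c ^ (5 : ℤ) = 1 := by exact_mod_cast h5
  have e1 : W x c = c * W x c * c := by
    unfold W
    calc x * c ^ (2 : ℤ) * x * c ^ (-2 : ℤ) * x
        = x * c ^ (2 : ℤ) * (x * c ^ (-2 : ℤ) * x) := by group
      _ = x * c ^ (2 : ℤ) * (c * x * c ^ (2 : ℤ) * x * c) := by rw [R2' hx h]
      _ = x * c ^ (3 : ℤ) * x * c ^ (2 : ℤ) * x * c := by group
      _ = x * (c ^ (5 : ℤ) * c ^ (-2 : ℤ)) * x * c ^ (2 : ℤ) * x * c := by group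
      _ = (x * c ^ (-2 : ℤ) * x) * c ^ (2 : ℤ) * x * c := by rw [e5, one_mul]
      _ = (c * x * c ^ (2 : ℤ) * x * c) * c ^ (2 : ℤ) * x * c := by rw [R2' hx h]
      _ = c * (x * c ^ (2 : ℤ) * x * (c ^ (5 : ℤ) * c ^ (-2 : ℤ)) * x) * c := by group
      _ = c * (x * c ^ (2 : ℤ) * x * c ^ (-2 : ℤ) * x) * c := by rw [e5, one_mul]
  calc W x c * c = c⁻¹ * (c * W x c * c) := by group
    _ = c⁻¹ * W x c := by rw [← e1]

/-- The 60 (possibly equal) elements of an icosahedral group. -/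
def Elt (x c : G) (g : G) : Prop :=
  (∃ i : ℤ, g = c ^ i) ∨ (∃ i j : ℤ, g = c ^ i * x * c ^ j) ∨
    (∃ i j : ℤ, g = c ^ i * (x * c ^ (2 : ℤ) * x) * c ^ j) ∨ (∃ i : ℤ, g = c ^ i * W x c)

theorem Elt_mul_c (hx : x * x = 1) (h : (x * c) ^ 3 = 1) (h5 : c ^ 5 = 1) {g : G}
    (hg : Elt x c g) : Elt x c (g * c) := by
  rcases hg with ⟨i, rfl⟩ | ⟨i, j, rfl⟩ | ⟨i, j, rfl⟩ | ⟨i, rfl⟩
  · exact Or.inl ⟨i + 1, by rw [zpow_add_one]⟩
  · exact Or.inr (Or.inl ⟨i, j + 1, by rw [zpow_add_one]; group⟩)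
  · exact Or.inr (Or.inr (Or.inl ⟨i, j + 1, by rw [zpow_add_one]; group⟩))
  · refine Or.inr (Or.inr (Or.inr ⟨i - 1, ?_⟩))
    rw [mul_assoc, W_mul_c hx h h5]
    group

theorem zpow_mod_five (h5 : c ^ 5 = 1) (j : ℤ) :
    c ^ j = 1 ∨ c ^ j = c ∨ c ^ j = c⁻¹ ∨ c ^ j = c ^ (2 : ℤ) ∨ c ^ j = c ^ (-2 : ℤ) := by
  have e5 : c ^ (5 : ℤ) = 1 := by exact_mod_cast h5
  have key : ∀ r k : ℤ, c ^ (r + 5 * k) = c ^ r := by
    intro r k
    rw [zpow_add, zpow_mul, e5, one_zpow, mul_one]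
  have hj : j = j % 5 + 5 * (j / 5) := (Int.emod_add_mul_ediv j 5).symm
  have h0 : 0 ≤ j % 5 := Int.emod_nonneg j (by norm_num)
  have h1 : j % 5 < 5 := Int.emod_lt_of_pos j (by norm_num)
  rw [hj, key]
  have hcases : j % 5 = 0 ∨ j % 5 = 1 ∨ j % 5 = 2 ∨ j % 5 = 3 ∨ j % 5 = 4 := by omega
  rcases hcases with e | e | e | e | e <;> rw [e]
  · left; simp
  · right; left; simp
  · right; right; right; left; rfl
  · right; right; right; right
    have := key (-2) 1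
    norm_num at this ⊢
    exact this
  · right; right; left
    have := key (-1) 1
    norm_num at this ⊢
    exact this

theorem Elt_mul_x (hx : x * x = 1) (h : (x * c) ^ 3 = 1) (h5 : c ^ 5 = 1) {g : G}
    (hg : Elt x c g) : Elt x c (g * x) := by
  rcases hg with ⟨i, rfl⟩ | ⟨i, j, rfl⟩ | ⟨i, j, rfl⟩ | ⟨i, rfl⟩
  · exact Or.inr (Or.inl ⟨i, 0, by simp⟩)
  · rcases zpow_mod_five h5 j with e | e | e | e | e <;> rw [e]
    · refine Or.inl ⟨i, ?_⟩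
      rw [mul_one, mul_assoc, hx, mul_one]
    · refine Or.inr (Or.inl ⟨i - 1, -1, ?_⟩)
      calc c ^ i * x * c * x = c ^ i * (x * c * x) := by group
        _ = c ^ i * (c⁻¹ * x * c⁻¹) := by rw [R1 hx h]
        _ = _ := by group
    · refine Or.inr (Or.inl ⟨i + 1, 1, ?_⟩)
      calc c ^ i * x * c⁻¹ * x = c ^ i * (x * c⁻¹ * x) := by group
        _ = c ^ i * (c * x * c) := by rw [R1' hx h]
        _ = _ := by group
    · exact Or.inr (Or.inr (Or.inl ⟨i, 0, by group⟩))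
    · refine Or.inr (Or.inr (Or.inl ⟨i + 1, 1, ?_⟩))
      calc c ^ i * x * c ^ (-2 : ℤ) * x = c ^ i * (x * c ^ (-2 : ℤ) * x) := by group
        _ = c ^ i * (c * x * c ^ (2 : ℤ) * x * c) := by rw [R2' hx h]
        _ = _ := by group
  · rcases zpow_mod_five h5 j with e | e | e | e | e <;> rw [e]
    · refine Or.inr (Or.inl ⟨i, 2, ?_⟩)
      calc c ^ i * (x * c ^ (2 : ℤ) * x) * 1 * x = c ^ i * x * c ^ (2 : ℤ) * (x * x) := by group
        _ = _ := by rw [hx, mul_one]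
    · refine Or.inr (Or.inl ⟨i - 1, -2, ?_⟩)
      calc c ^ i * (x * c ^ (2 : ℤ) * x) * c * x = c ^ i * x * c ^ (2 : ℤ) * (x * c * x) := by
            group
        _ = c ^ i * x * c ^ (2 : ℤ) * (c⁻¹ * x * c⁻¹) := by rw [R1 hx h]
        _ = c ^ i * (x * c * x) * c⁻¹ := by group
        _ = c ^ i * (c⁻¹ * x * c⁻¹) * c⁻¹ := by rw [R1 hx h]
        _ = _ := by group
    · refine Or.inr (Or.inr (Or.inl ⟨i + 1, 2, ?_⟩))
      have e5 : c ^ (5 : ℤ) = 1 := by exact_mod_cast h5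
      calc c ^ i * (x * c ^ (2 : ℤ) * x) * c⁻¹ * x
          = c ^ i * x * c ^ (2 : ℤ) * (x * c⁻¹ * x) := by group
        _ = c ^ i * x * c ^ (2 : ℤ) * (c * x * c) := by rw [R1' hx h]
        _ = c ^ i * x * (c ^ (5 : ℤ) * c ^ (-2 : ℤ)) * x * c := by group
        _ = c ^ i * (x * c ^ (-2 : ℤ) * x) * c := by rw [e5, one_mul]; group
        _ = c ^ i * (c * x * c ^ (2 : ℤ) * x * c) * c := by rw [R2' hx h]
        _ = _ := by simp only [zpow_two]; group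
    · refine Or.inr (Or.inr (Or.inl ⟨i - 1, -1, ?_⟩))
      calc c ^ i * (x * c ^ (2 : ℤ) * x) * c ^ (2 : ℤ) * x
          = c ^ i * (x * c ^ (2 : ℤ) * x * c ^ (2 : ℤ) * x) := by group
        _ = c ^ i * (c⁻¹ * (x * c ^ (2 : ℤ) * x) * c⁻¹) := by rw [R3 hx h h5]
        _ = _ := by group
    · refine Or.inr (Or.inr (Or.inr ⟨i, ?_⟩))
      unfold W
      group
  · refine Or.inr (Or.inr (Or.inl ⟨i, -2, ?_⟩))
    unfold W
    calc c ^ i * (x * c ^ (2 : ℤ) * x * c ^ (-2 : ℤ) * x) * x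
        = c ^ i * x * c ^ (2 : ℤ) * x * c ^ (-2 : ℤ) * (x * x) := by group
      _ = _ := by rw [hx]; group

/-- A group generated by `x, c` with `x² = c⁵ = (xc)³ = 1` has at most 60 elements. -/
theorem card_le_sixty (hx : x * x = 1) (h : (x * c) ^ 3 = 1) (h5 : c ^ 5 = 1)
    (hgen : Subgroup.closure {x, c} = ⊤) : Nat.card G ≤ 60 := by
  have e5 : c ^ (5 : ℤ) = 1 := by exact_mod_cast h5
  have hxi : x⁻¹ = x := inv_eq_of_mul_eq_one_left hx
  have hall : ∀ g : G, Elt x c g := by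
    intro g
    have hg : g ∈ Subgroup.closure {x, c} := by rw [hgen]; trivial
    induction hg using Subgroup.closure_induction_right with
    | one => exact Or.inl ⟨0, by simp⟩
    | mul_right a ha b hb ih =>
      rcases hb with rfl | rfl
      · exact Elt_mul_x hx h h5 ih
      · exact Elt_mul_c hx h h5 ih
    | mul_inv_cancel a ha b hb ih =>
      rcases hb with rfl | rfl
      · rw [hxi]; exact Elt_mul_x hx h h5 ih
      · have e : b⁻¹ = b * b * b * b := by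
          have : b * b * b * b * b = 1 := by rw [← h5]; simp only [pow_succ, pow_zero, one_mul]
          exact (eq_inv_of_mul_eq_one_left this).symm
        rw [e, ← mul_assoc, ← mul_assoc, ← mul_assoc]
        exact Elt_mul_c hx h h5 (Elt_mul_c hx h h5 (Elt_mul_c hx h h5 (Elt_mul_c hx h h5 ih)))
  -- the surjection from a 60 element type
  let f : (Fin 5 ⊕ Fin 5 × Fin 5) ⊕ (Fin 5 × Fin 5 ⊕ Fin 5) → G := fun s =>
    match s with
    | Sum.inl (Sum.inl i) => c ^ (i : ℤ)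
    | Sum.inl (Sum.inr (i, j)) => c ^ (i : ℤ) * x * c ^ (j : ℤ)
    | Sum.inr (Sum.inl (i, j)) => c ^ (i : ℤ) * (x * c ^ (2 : ℤ) * x) * c ^ (j : ℤ)
    | Sum.inr (Sum.inr i) => c ^ (i : ℤ) * W x c
  have hmod : ∀ i : ℤ, ∃ k : Fin 5, c ^ i = c ^ (k : ℤ) := by
    intro i
    have h0 : 0 ≤ i % 5 := Int.emod_nonneg i (by norm_num)
    have h1 : i % 5 < 5 := Int.emod_lt_of_pos i (by norm_num)
    refine ⟨⟨(i % 5).toNat, by omega⟩, ?_⟩
    have hi : i = i % 5 + 5 * (i / 5) := (Int.emod_add_mul_ediv i 5).symm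
    have h2 : (((⟨(i % 5).toNat, by omega⟩ : Fin 5) : ℕ) : ℤ) = i % 5 := by
      simp [h0]
    rw [h2]
    conv_lhs => rw [hi]
    rw [zpow_add, zpow_mul, e5, one_zpow, mul_one]
  have hsurj : Function.Surjective f := by
    intro g
    rcases hall g with ⟨i, rfl⟩ | ⟨i, j, rfl⟩ | ⟨i, j, rfl⟩ | ⟨i, rfl⟩
    · obtain ⟨k, hk⟩ := hmod i
      exact ⟨Sum.inl (Sum.inl k), hk.symm⟩
    · obtain ⟨k, hk⟩ := hmod i
      obtain ⟨l, hl⟩ := hmod j
      exact ⟨Sum.inl (Sum.inr (k, l)), by simp only [f]; rw [hk, hl]⟩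
    · obtain ⟨k, hk⟩ := hmod i
      obtain ⟨l, hl⟩ := hmod j
      exact ⟨Sum.inr (Sum.inl (k, l)), by simp only [f]; rw [hk, hl]⟩
    · obtain ⟨k, hk⟩ := hmod i
      exact ⟨Sum.inr (Sum.inr k), by simp only [f]; rw [hk]⟩
  have := Nat.card_le_card_of_surjective f hsurj
  refine this.trans ?_
  simp [Nat.card_eq_fintype_card]

end Icosa

end Pool.Agent.W_MP_73c65d_al
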