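import Mathlib

/-!
The number of permutations with `σ ^ p = 1`.
-/

namespace Pool.Agent.W_MP_73c65d_al.Inv27

open Finset

/-- The number of permutations of `n` letters with `σ ^ p = 1`. -/
noncomputable def inv (p n : ℕ) : ℕ := Nat.card {σ : Equiv.Perm (Fin n) // σ ^ p = 1}

theorem term_le {p n j : ℕ} {x : ℝ} (hx : 0 < x) (hp : 0 < p) (hj : p * j ≤ n) :
    (n.factorial : ℝ) / ((n - p * j).factorial * p ^ j * j.factorial) ≤
      n.factorial * x⁻¹ ^ n * Real.exp x * ((x ^ p / p) ^ j / j.factorial) := by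
  have h1 : x ^ (n - p * j) / (n - p * j).factorial ≤ Real.exp x := by
    have := Real.sum_le_exp_of_nonneg hx.le (n - p * j + 1)
    refine le_trans ?_ this
    exact Finset.single_le_sum (f := fun i => x ^ i / (i.factorial : ℝ))
      (fun i _ => by positivity) (Finset.self_mem_range_succ _)
  have hp0 : (0 : ℝ) < p := by exact_mod_cast hp
  have h2 : (n.factorial : ℝ) / ((n - p * j).factorial * p ^ j * j.factorial) =
      n.factorial * x⁻¹ ^ n * (x ^ (n - p * j) / (n - p * j).factorial) *
        ((x ^ p / p) ^ j / j.factorial) := by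
    have h3 : x ^ n = x ^ (n - p * j) * (x ^ p) ^ j := by
      rw [← pow_mul, ← pow_add, Nat.sub_add_cancel hj]
    have h4 : x⁻¹ ^ n * (x ^ (n - p * j) * (x ^ p) ^ j) = 1 := by
      rw [← h3, inv_pow, inv_mul_cancel₀ (pow_pos hx n).ne']
    rw [div_pow]
    field_simp
    rw [one_div, mul_assoc]
    exact h4.symm
  rw [h2]
  have h5 : 0 ≤ (x ^ p / p) ^ j / (j.factorial : ℝ) := by positivity
  exact mul_le_mul_of_nonneg_right (mul_le_mul_of_nonneg_left h1 (by positivity)) h5

theorem card_type_le {p n j : ℕ} {x : ℝ} (hx : 0 < x) (hp : p.Prime) :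
    ((#({g : Equiv.Perm (Fin n) | g.cycleType = Multiset.replicate j p})  : ℕ) : ℝ) ≤
      n.factorial * x⁻¹ ^ n * Real.exp x * ((x ^ p / p) ^ j / j.factorial) := by
  have hp0 : (0 : ℝ) < p := by exact_mod_cast hp.pos
  have h := Equiv.Perm.card_of_cycleType_mul_eq (α := Fin n) (Multiset.replicate j p)
  rw [Multiset.sum_replicate, Multiset.prod_replicate, smul_eq_mul, Fintype.card_fin] at h
  by_cases hj : j * p ≤ n
  · rw [if_pos ⟨hj, fun a ha => by rw [Multiset.eq_of_mem_replicate ha]; exact hp.two_le⟩] at h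
    have h1 : (∏ k ∈ (Multiset.replicate j p).toFinset,
        ((Multiset.replicate j p).count k).factorial) = j.factorial := by
      rcases Nat.eq_zero_or_pos j with rfl | hj0
      · simp
      · rw [Multiset.toFinset_replicate, if_neg hj0.ne', Finset.prod_singleton,
          Multiset.count_replicate_self]
    rw [h1] at h
    refine le_trans (le_of_eq ?_) (term_le (n := n) hx hp.pos (by rwa [mul_comm]))
    rw [eq_div_iff (by positivity)]
    have h2 := congrArg (fun k : ℕ => (k : ℝ)) h
    push_cast at h2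
    rw [mul_comm p j]
    linarith
  · rw [if_neg (fun hh => hj hh.1)] at h
    have h3 : #({g : Equiv.Perm (Fin n) | g.cycleType = Multiset.replicate j p}) = 0 := by
      rcases Nat.mul_eq_zero.1 h with h4 | h4
      · exact h4
      · exfalso
        revert h4
        have : 0 < (n - j * p).factorial * p ^ j *
            ∏ k ∈ (Multiset.replicate j p).toFinset,
              ((Multiset.replicate j p).count k).factorial :=
          Nat.mul_pos (Nat.mul_pos (Nat.factorial_pos _) (pow_pos hp.pos _))
            (Finset.prod_pos fun k _ => Nat.factorial_pos _)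
        exact this.ne'
    rw [h3]
    push_cast
    positivity

theorem inv_le {p n : ℕ} {x : ℝ} (hx : 0 < x) (hp : p.Prime) :
    (inv p n : ℝ) ≤ n.factorial * x⁻¹ ^ n * Real.exp x * Real.exp (x ^ p / p) := by
  classical
  have hp0 : (0 : ℝ) < p := by exact_mod_cast hp.pos
  have : Fact p.Prime := ⟨hp⟩
  have h1 : inv p n ≤ ∑ j ∈ range (n + 1),
      #({g : Equiv.Perm (Fin n) | g.cycleType = Multiset.replicate j p}) := by
    unfold inv
    rw [Nat.card_eq_fintype_card, Fintype.card_subtype]
    refine le_trans (Finset.card_le_card ?_) Finset.card_biUnion_le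
    intro σ hσ
    rw [Finset.mem_filter] at hσ
    have h2 := (Equiv.Perm.pow_prime_eq_one_iff (p := p)).1 hσ.2
    rw [Finset.mem_biUnion]
    refine ⟨Multiset.card σ.cycleType, ?_, ?_⟩
    · rw [Finset.mem_range]
      have h3 : Multiset.card σ.cycleType ≤ σ.cycleType.sum := by
        have h4 := Multiset.card_nsmul_le_sum (s := σ.cycleType) (a := 1) (fun y hy => by
          rw [h2 y hy]
          exact hp.one_lt.le)
        simpa using h4
      rw [Equiv.Perm.sum_cycleType] at h3
      have h5 := σ.support.card_le_univ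
      rw [Fintype.card_fin] at h5
      omega
    · rw [Finset.mem_filter]
      exact ⟨Finset.mem_univ _, Multiset.eq_replicate.2 ⟨rfl, h2⟩⟩
  calc (inv p n : ℝ) ≤ ((∑ j ∈ range (n + 1),
      #({g : Equiv.Perm (Fin n) | g.cycleType = Multiset.replicate j p}) : ℕ) : ℝ) := by
        exact_mod_cast h1
    _ ≤ ∑ j ∈ range (n + 1),
        n.factorial * x⁻¹ ^ n * Real.exp x * ((x ^ p / p) ^ j / j.factorial) := by
        push_cast
        exact Finset.sum_le_sum fun j _ => card_type_le hx hp
    _ ≤ _ := by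
        rw [← Finset.mul_sum]
        refine mul_le_mul_of_nonneg_left ?_ (by positivity)
        exact Real.sum_le_exp_of_nonneg (by positivity) (n + 1)

theorem inv_le' {p n : ℕ} (hn : 1 ≤ n) (hp : p.Prime) :
    (inv p n : ℝ) ≤ n.factorial * Real.exp (-((n : ℝ) / p) * Real.log n + n + n / p) := by
  have hn0 : (0 : ℝ) < n := by exact_mod_cast hn
  have hn1 : (1 : ℝ) ≤ n := by exact_mod_cast hn
  have hp0 : (0 : ℝ) < p := by exact_mod_cast hp.pos
  have hp1 : (1 : ℝ) ≤ p := by exact_mod_cast hp.one_lt.le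
  have hl : 0 ≤ Real.log n := Real.log_nonneg hn1
  have h := inv_le (n := n) (x := Real.exp (Real.log n / p)) (Real.exp_pos _) hp
  have h1 : Real.exp (Real.log n / p) ^ p = n := by
    rw [← Real.exp_nat_mul, mul_div_cancel₀ _ hp0.ne', Real.exp_log hn0]
  have h2 : (Real.exp (Real.log n / p))⁻¹ ^ n = Real.exp (-((n : ℝ) / p) * Real.log n) := by
    rw [← Real.exp_neg, ← Real.exp_nat_mul]
    congr 1
    field_simp
  have h3 : Real.exp (Real.log n / p) ≤ n := by
    have h4 : Real.log n / p ≤ Real.log n := div_le_self hl hp1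
    calc Real.exp (Real.log n / p) ≤ Real.exp (Real.log n) := Real.exp_le_exp.2 h4
      _ = n := Real.exp_log hn0
  rw [h1, h2] at h
  refine h.trans ?_
  rw [Real.exp_add, Real.exp_add, mul_assoc, mul_assoc, mul_assoc]
  refine mul_le_mul_of_nonneg_left ?_ (by positivity)
  refine mul_le_mul_of_nonneg_left ?_ (by positivity)
  exact mul_le_mul_of_nonneg_right (Real.exp_le_exp.2 h3) (by positivity)

/-- The weight of the degree `n`. -/
noncomputable def wt (n : ℕ) : ℝ :=
  (inv 2 n : ℝ) * inv 3 n * inv 5 n / (n.factorial : ℝ) ^ 2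

theorem wt_nonneg (n : ℕ) : 0 ≤ wt n := by
  unfold wt
  positivity

theorem wt_le {n : ℕ} (hn : 1 ≤ n) :
    wt n ≤ Real.exp (5 * n - n / 30 * Real.log n) := by
  have hn0 : (0 : ℝ) < n := by exact_mod_cast hn
  have hf : (0 : ℝ) < n.factorial := by exact_mod_cast n.factorial_pos
  have h2 := inv_le' hn Nat.prime_two
  have h3 := inv_le' hn Nat.prime_three
  have h5 := inv_le' hn Nat.prime_five
  push_cast at h2 h3 h5
  have h6 : (inv 2 n : ℝ) * inv 3 n * inv 5 n ≤
      (n.factorial * Real.exp (-((n : ℝ) / 2) * Real.log n + n + n / 2)) *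
      (n.factorial * Real.exp (-((n : ℝ) / 3) * Real.log n + n + n / 3)) *
      (n.factorial * Real.exp (-((n : ℝ) / 5) * Real.log n + n + n / 5)) :=
    mul_le_mul (mul_le_mul h2 h3 (by positivity) (by positivity)) h5 (by positivity)
      (by positivity)
  have h7 : (n.factorial : ℝ) ≤ Real.exp (n * Real.log n) := by
    have h8 : (n.factorial : ℝ) ≤ (n : ℝ) ^ n := by exact_mod_cast Nat.factorial_le_pow n
    refine h8.trans (le_of_eq ?_)
    rw [Real.exp_nat_mul, Real.exp_log hn0]
  unfold wt
  rw [div_le_iff₀ (by positivity)]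
  refine h6.trans ?_
  have h9 : (n.factorial * Real.exp (-((n : ℝ) / 2) * Real.log n + n + n / 2)) *
      (n.factorial * Real.exp (-((n : ℝ) / 3) * Real.log n + n + n / 3)) *
      (n.factorial * Real.exp (-((n : ℝ) / 5) * Real.log n + n + n / 5)) =
      (n.factorial * Real.exp (-(31 * (n : ℝ) / 30) * Real.log n + 3 * n + 31 * n / 30)) *
        (n.factorial : ℝ) ^ 2 := by
    have h10 : Real.exp (-(31 * (n : ℝ) / 30) * Real.log n + 3 * n + 31 * n / 30) =
        Real.exp (-((n : ℝ) / 2) * Real.log n + n + n / 2) *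
        Real.exp (-((n : ℝ) / 3) * Real.log n + n + n / 3) *
        Real.exp (-((n : ℝ) / 5) * Real.log n + n + n / 5) := by
      rw [← Real.exp_add, ← Real.exp_add]
      congr 1
      ring
    rw [h10]
    ring
  rw [h9]
  refine mul_le_mul_of_nonneg_right ?_ (by positivity)
  calc (n.factorial : ℝ) * Real.exp (-(31 * (n : ℝ) / 30) * Real.log n + 3 * n + 31 * n / 30)
      ≤ Real.exp (n * Real.log n) *
        Real.exp (-(31 * (n : ℝ) / 30) * Real.log n + 3 * n + 31 * n / 30) :=
        mul_le_mul_of_nonneg_right h7 (by positivity)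
    _ = Real.exp (-((n : ℝ) / 30) * Real.log n + 3 * n + 31 * n / 30) := by
        rw [← Real.exp_add]
        congr 1
        ring
    _ ≤ _ := by
        apply Real.exp_le_exp.2
        linarith

theorem summable_wt : Summable wt := by
  have h1 : ∀ᶠ n : ℕ in Filter.atTop, ‖wt n‖ ≤ Real.exp (-(n : ℝ)) := by
    have h2 : Filter.Tendsto (fun n : ℕ => Real.log n) Filter.atTop Filter.atTop :=
      Real.tendsto_log_atTop.comp tendsto_natCast_atTop_atTop
    filter_upwards [h2.eventually_ge_atTop 180, Filter.eventually_ge_atTop 1] with n hn h1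
    rw [Real.norm_eq_abs, abs_of_nonneg (wt_nonneg n)]
    refine (wt_le h1).trans (Real.exp_le_exp.2 ?_)
    have hn0 : (0 : ℝ) < n := by exact_mod_cast h1
    have h3 : (n : ℝ) / 30 * 180 ≤ n / 30 * Real.log n :=
      mul_le_mul_of_nonneg_left hn (by positivity)
    linarith
  refine Summable.of_norm_bounded_eventually_nat ?_ h1
  have h2 : Summable fun n : ℕ => Real.exp (-1) ^ n :=
    summable_geometric_of_lt_one (Real.exp_pos _).le (by
      rw [Real.exp_lt_one_iff]
      norm_num)
  refine h2.congr fun n => ?_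
  rw [← Real.exp_nat_mul]
  congr 1
  ring

end Pool.Agent.W_MP_73c65d_al.Inv27
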