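import Pool.Agent.W_MP_73c65d_al.Win27
import Pool.Agent.W_MP_73c65d_al.Inv27

/-!
The number of the kernels of the homomorphisms onto `A_n` with `ξ² = η³ = ζ⁵ = 1`.
-/

namespace Pool.Agent.W_MP_73c65d_al.Ker27

open Pool.Agent.W_MP_73c65d_al Pool.Agent.W_MP_73c65d_al.Win27 Pool.Agent.W_MP_73c65d_al.Inv27

theorem ex_notMem {n : ℕ} (s : Finset (Fin n)) (h : s.card < n) : ∃ c, c ∉ s := by
  by_contra hcon
  push Not at hcon
  have h1 : (Finset.univ : Finset (Fin n)).card ≤ s.card :=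
    Finset.card_le_card fun x _ => hcon x
  rw [Finset.card_univ, Fintype.card_fin] at h1
  omega

/-- Only the identity commutes with all even permutations. -/
theorem centralizer_alt {n : ℕ} (hn : 4 ≤ n) {τ : Equiv.Perm (Fin n)}
    (h : ∀ g ∈ alternatingGroup (Fin n), τ * g = g * τ) : τ = 1 := by
  by_contra hne
  obtain ⟨a, ha⟩ : ∃ a, τ a ≠ a := by
    by_contra hcon
    push Not at hcon
    exact hne (Equiv.ext hcon)
  obtain ⟨c, hc⟩ := ex_notMem {a, τ a} (lt_of_le_of_lt (Finset.card_le_two) (by omega))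
  obtain ⟨d, hd⟩ := ex_notMem {a, τ a, c} (lt_of_le_of_lt (Finset.card_le_three) (by omega))
  simp only [Finset.mem_insert, Finset.mem_singleton, not_or] at hc hd
  have hbc : τ a ≠ c := fun e => hc.2 e.symm
  have hbd : τ a ≠ d := fun e => hd.2.1 e.symm
  have hg : Equiv.swap (τ a) c * Equiv.swap (τ a) d ∈ alternatingGroup (Fin n) := by
    rw [Equiv.Perm.mem_alternatingGroup, Equiv.Perm.sign_mul, Equiv.Perm.sign_swap hbc,
      Equiv.Perm.sign_swap hbd]
    norm_num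
  have h1 := congrArg (fun σ : Equiv.Perm (Fin n) => σ a) (h _ hg)
  simp only [Equiv.Perm.mul_apply] at h1
  rw [Equiv.swap_apply_of_ne_of_ne (Ne.symm ha) (fun e => hd.1 e.symm),
    Equiv.swap_apply_of_ne_of_ne (Ne.symm ha) (fun e => hc.1 e.symm), Equiv.swap_apply_left,
    Equiv.swap_apply_of_ne_of_ne (fun e => hd.2.1 e) (fun e => hd.2.2 e)] at h1
  exact hbd h1

/-- The kernels of the `(2, 3, 5)`-generating triples of `A_n`. -/
def Kn (n : ℕ) : Set (Subgroup F) :=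
  {K | ∃ ξ η ζ : alternatingGroup (Fin n), Subgroup.closure {ξ, η, ζ} = ⊤ ∧ ξ ^ 2 = 1 ∧
    η ^ 3 = 1 ∧ ζ ^ 5 = 1 ∧ K = (FreeGroup.lift ![ξ, η, ζ] : F →* alternatingGroup (Fin n)).ker}

theorem Kn_sub {n N : ℕ} (hn : n ≤ N) (h5 : 5 ≤ n) : Kn n ⊆ Ks N := by
  rintro K ⟨ξ, η, ζ, hc, _, _, _, rfl⟩
  exact ker_mem_Ks_alt hn h5 (lift_surj hc)

theorem Kn_finite {n : ℕ} (h5 : 5 ≤ n) : (Kn n).Finite := (Ks_finite n).subset (Kn_sub le_rfl h5)

theorem Kn_index {n : ℕ} (h5 : 5 ≤ n) {K : Subgroup F} (hK : K ∈ Kn n) :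
    2 * K.index = n.factorial := by
  obtain ⟨ξ, η, ζ, hc, _, _, _, rfl⟩ := hK
  rw [card_of_ker (lift_surj hc), card_alt (by omega)]

theorem Kn_card {n : ℕ} (h5 : 5 ≤ n) :
    Nat.card (Kn n) * n.factorial ≤ inv 2 n * inv 3 n * inv 5 n := by
  classical
  have hfin : Finite (Kn n) := (Kn_finite h5).to_subtype
  have h : ∀ K : Kn n, ∃ ξ η ζ : alternatingGroup (Fin n), Subgroup.closure {ξ, η, ζ} = ⊤ ∧
    ξ ^ 2 = 1 ∧ η ^ 3 = 1 ∧ ζ ^ 5 = 1 ∧
      (K : Subgroup F) = (FreeGroup.lift ![ξ, η, ζ] : F →* alternatingGroup (Fin n)).ker :=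
    fun K => K.2
  choose ξ η ζ h1 h2 h3 h4 h6 using h
  have hc : ∀ (k : ℕ) (g : alternatingGroup (Fin n)) (σ : Equiv.Perm (Fin n)), g ^ k = 1 →
      (σ * (g : Equiv.Perm (Fin n)) * σ⁻¹) ^ k = 1 := by
    intro k g σ hg
    have hg' : (g : Equiv.Perm (Fin n)) ^ k = 1 := by
      have := congrArg (fun x : alternatingGroup (Fin n) => (x : Equiv.Perm (Fin n))) hg
      simpa using this
    rw [conj_pow, hg', mul_one, mul_inv_cancel]
  let f : Kn n × Equiv.Perm (Fin n) →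
      ({σ : Equiv.Perm (Fin n) // σ ^ 2 = 1} × {σ : Equiv.Perm (Fin n) // σ ^ 3 = 1}) ×
        {σ : Equiv.Perm (Fin n) // σ ^ 5 = 1} := fun x =>
    ((⟨x.2 * (ξ x.1 : Equiv.Perm (Fin n)) * x.2⁻¹, hc 2 _ _ (h2 x.1)⟩,
      ⟨x.2 * (η x.1 : Equiv.Perm (Fin n)) * x.2⁻¹, hc 3 _ _ (h3 x.1)⟩),
      ⟨x.2 * (ζ x.1 : Equiv.Perm (Fin n)) * x.2⁻¹, hc 5 _ _ (h4 x.1)⟩)
  let Φ : Kn n → Equiv.Perm (Fin n) → F →* Equiv.Perm (Fin n) := fun K σ =>
    (MulAut.conj σ).toMonoidHom.comp ((alternatingGroup (Fin n)).subtype.comp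
      (FreeGroup.lift ![ξ K, η K, ζ K]))
  have hker : ∀ K σ, (Φ K σ).ker = (K : Subgroup F) := by
    intro K σ
    rw [h6 K]
    change ((MulAut.conj σ).toMonoidHom.comp ((alternatingGroup (Fin n)).subtype.comp
      (FreeGroup.lift ![ξ K, η K, ζ K]))).ker = _
    rw [ker_comp _ (MulAut.conj σ).injective, ker_comp _ Subtype.val_injective]
  have hinj : Function.Injective f := by
    rintro ⟨K, σ⟩ ⟨K', σ'⟩ he
    have e1 : σ * (ξ K : Equiv.Perm (Fin n)) * σ⁻¹ = σ' * (ξ K' : Equiv.Perm (Fin n)) * σ'⁻¹ :=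
      congrArg (fun y => (y.1.1 : Equiv.Perm (Fin n))) he
    have e2 : σ * (η K : Equiv.Perm (Fin n)) * σ⁻¹ = σ' * (η K' : Equiv.Perm (Fin n)) * σ'⁻¹ :=
      congrArg (fun y => (y.1.2 : Equiv.Perm (Fin n))) he
    have e3 : σ * (ζ K : Equiv.Perm (Fin n)) * σ⁻¹ = σ' * (ζ K' : Equiv.Perm (Fin n)) * σ'⁻¹ :=
      congrArg (fun y => (y.2 : Equiv.Perm (Fin n))) he
    have e4 : Φ K σ = Φ K' σ' := by
      refine FreeGroup.ext_hom _ _ fun i => ?_
      fin_cases i
      · change σ * ((FreeGroup.lift ![ξ K, η K, ζ K] (FreeGroup.of 0) :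
          alternatingGroup (Fin n)) : Equiv.Perm (Fin n)) * σ⁻¹ = σ' *
          ((FreeGroup.lift ![ξ K', η K', ζ K'] (FreeGroup.of 0) :
          alternatingGroup (Fin n)) : Equiv.Perm (Fin n)) * σ'⁻¹
        rw [FreeGroup.lift_apply_of, FreeGroup.lift_apply_of]
        exact e1
      · change σ * ((FreeGroup.lift ![ξ K, η K, ζ K] (FreeGroup.of 1) :
          alternatingGroup (Fin n)) : Equiv.Perm (Fin n)) * σ⁻¹ = σ' *
          ((FreeGroup.lift ![ξ K', η K', ζ K'] (FreeGroup.of 1) :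
          alternatingGroup (Fin n)) : Equiv.Perm (Fin n)) * σ'⁻¹
        rw [FreeGroup.lift_apply_of, FreeGroup.lift_apply_of]
        exact e2
      · change σ * ((FreeGroup.lift ![ξ K, η K, ζ K] (FreeGroup.of 2) :
          alternatingGroup (Fin n)) : Equiv.Perm (Fin n)) * σ⁻¹ = σ' *
          ((FreeGroup.lift ![ξ K', η K', ζ K'] (FreeGroup.of 2) :
          alternatingGroup (Fin n)) : Equiv.Perm (Fin n)) * σ'⁻¹
        rw [FreeGroup.lift_apply_of, FreeGroup.lift_apply_of]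
        exact e3
    have e5 : K = K' := by
      apply Subtype.ext
      rw [← hker K σ, ← hker K' σ', e4]
    subst e5
    have e6 : σ'⁻¹ * σ = 1 := by
      refine centralizer_alt (by omega) fun g hg => ?_
      have hg2 : (⟨g, hg⟩ : alternatingGroup (Fin n)) ∈
          Subgroup.closure {ξ K, η K, ζ K} := by
        rw [h1 K]
        trivial
      have key : ∀ x y : Equiv.Perm (Fin n), σ * x * σ⁻¹ = σ' * x * σ'⁻¹ →
          σ'⁻¹ * σ * x = x * (σ'⁻¹ * σ) := by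
        intro x _ hx
        have : σ'⁻¹ * (σ * x * σ⁻¹) * σ = σ'⁻¹ * (σ' * x * σ'⁻¹) * σ := by rw [hx]
        calc σ'⁻¹ * σ * x = σ'⁻¹ * (σ * x * σ⁻¹) * σ := by group
          _ = σ'⁻¹ * (σ' * x * σ'⁻¹) * σ := this
          _ = x * (σ'⁻¹ * σ) := by group
      have hle : Subgroup.closure {ξ K, η K, ζ K} ≤
          (Subgroup.centralizer {σ'⁻¹ * σ}).comap (alternatingGroup (Fin n)).subtype := by
        rw [Subgroup.closure_le]
        rintro x hx
        simp only [Set.mem_insert_iff, Set.mem_singleton_iff] at hx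
        rw [SetLike.mem_coe, Subgroup.mem_comap, Subgroup.mem_centralizer_iff]
        intro y hy
        rw [Set.mem_singleton_iff.1 hy]
        rcases hx with rfl | rfl | rfl
        · exact key _ 1 e1
        · exact key _ 1 e2
        · exact key _ 1 e3
      have h7 := hle hg2
      rw [Subgroup.mem_comap, Subgroup.mem_centralizer_iff] at h7
      exact h7 _ rfl
    have e7 : σ = σ' := by
      have := congrArg (fun x => σ' * x) e6
      simpa using this
    rw [e7]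
  have h8 := Nat.card_le_card_of_injective f hinj
  rw [Nat.card_prod, Nat.card_prod, Nat.card_prod, Nat.card_perm, Nat.card_fin] at h8
  exact h8

end Pool.Agent.W_MP_73c65d_al.Ker27
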