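import Pool.Agent.W_MP_73c65d_al.Defs
import Pool.Agent.W_MP_73c65d_al.Icosa

namespace Pool.Agent.W_MP_73c65d_al

open scoped commutatorElement

/-- Baumslag's trick: in a finite group, an element conjugate to an element which
conjugates it to its square is trivial. -/
theorem baumslag {G : Type*} [Group G] [Finite G] {a c : G} (hac : orderOf c = orderOf a)
    (h : c⁻¹ * a * c = a ^ 2) : a = 1 := by
  have hk : ∀ k : ℕ, c⁻¹ ^ k * a * c ^ k = a ^ (2 ^ k) := by
    intro k
    induction k with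
    | zero => simp
    | succ k ih =>
      have : c⁻¹ ^ (k + 1) * a * c ^ (k + 1) = c⁻¹ ^ k * (c⁻¹ * a * c) * c ^ k := by
        rw [pow_succ, pow_succ']
        simp only [mul_assoc]
      rw [this, h, sq]
      have e : c⁻¹ ^ k * (a * a) * c ^ k = (c⁻¹ ^ k * a * c ^ k) * (c⁻¹ ^ k * a * c ^ k) := by
        have : c ^ k * c⁻¹ ^ k = 1 := by rw [inv_pow, mul_inv_cancel]
        calc c⁻¹ ^ k * (a * a) * c ^ k = c⁻¹ ^ k * a * 1 * a * c ^ k := by simp only [mul_assoc, one_mul]
          _ = c⁻¹ ^ k * a * (c ^ k * c⁻¹ ^ k) * a * c ^ k := by rw [this]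
          _ = _ := by simp only [mul_assoc]
      rw [e, ih, ← pow_add]
      congr 1
      rw [pow_succ]; ring
  set m := orderOf a with hm
  have hmpos : 0 < m := orderOf_pos a
  have h1 := hk m
  rw [inv_pow, ← hac, pow_orderOf_eq_one, inv_one, one_mul, mul_one, hac] at h1
  have h2 : a ^ (2 ^ m - 1) = 1 := by
    have : a ^ (2 ^ m - 1) * a = a := by
      rw [← pow_succ, Nat.sub_add_cancel (Nat.one_le_two_pow), ← h1]
    exact mul_eq_right.1 this
  have h3 : m ∣ 2 ^ m - 1 := orderOf_dvd_of_pow_eq_one h2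
  by_contra hne
  have hm1 : m ≠ 1 := by
    intro h
    exact hne (orderOf_eq_one_iff.1 h)
  have hp : (Nat.minFac m).Prime := Nat.minFac_prime hm1
  have : Fact (Nat.minFac m).Prime := ⟨hp⟩
  have h4 : Nat.minFac m ∣ 2 ^ m - 1 := (Nat.minFac_dvd m).trans h3
  have h5 : ((2 : ZMod (Nat.minFac m))) ^ m = 1 := by
    have h6 := (ZMod.natCast_eq_zero_iff (2 ^ m - 1) (Nat.minFac m)).2 h4
    rw [Nat.cast_sub Nat.one_le_two_pow] at h6
    push_cast at h6
    exact sub_eq_zero.1 h6
  have h2ne : (2 : ZMod (Nat.minFac m)) ≠ 0 := by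
    intro h0
    rw [h0, zero_pow hmpos.ne'] at h5
    exact zero_ne_one h5
  have h7 : (2 : ZMod (Nat.minFac m)) ^ (Nat.minFac m - 1) = 1 := ZMod.pow_card_sub_one_eq_one h2ne
  have h8 : orderOf (2 : ZMod (Nat.minFac m)) ∣ m := orderOf_dvd_of_pow_eq_one h5
  have h9 : orderOf (2 : ZMod (Nat.minFac m)) ∣ Nat.minFac m - 1 := orderOf_dvd_of_pow_eq_one h7
  have h10 : orderOf (2 : ZMod (Nat.minFac m)) = 1 := by
    by_contra hne1
    have h11 : Nat.minFac m ≤ orderOf (2 : ZMod (Nat.minFac m)) := by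
      have h12 : Nat.minFac m ≤ Nat.minFac (orderOf (2 : ZMod (Nat.minFac m))) :=
        Nat.minFac_le_of_dvd (Nat.minFac_prime hne1).two_le
          ((Nat.minFac_dvd _).trans h8)
      refine h12.trans (Nat.minFac_le ?_)
      exact Nat.pos_of_dvd_of_pos h8 hmpos
    have h13 : orderOf (2 : ZMod (Nat.minFac m)) ≤ Nat.minFac m - 1 :=
      Nat.le_of_dvd (Nat.sub_pos_of_lt hp.one_lt) h9
    have := hp.two_le
    omega
  rw [orderOf_eq_one_iff] at h10
  have h14 : (1 : ZMod (Nat.minFac m)) = 0 := by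
    have : (2 : ZMod (Nat.minFac m)) - 1 = 0 := by rw [h10, sub_self]
    rw [← this]; norm_num
  exact one_ne_zero h14

theorem word_mem_commutator (b : F) : word b ∈ commutator F := by
  have h : word b = ⁅b⁻¹ * xyz⁻¹ * b, xyz⁻¹⁆ := by
    rw [commutatorElement_def, inv_inv]; rfl
  rw [h]
  exact Subgroup.commutator_mem_commutator (Subgroup.mem_top _) (Subgroup.mem_top _)

theorem lift_xyz {G : Type*} [Group G] (ξ η ζ : G) :
    FreeGroup.lift ![ξ, η, ζ] xyz = ξ * η * ζ := by
  simp [xyz]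

/-- in a finite group the relation `xyz·u_b = 1` is equivalent to `xyz = 1` -/
theorem word_relation {G : Type*} [Group G] [Finite G] (ξ η ζ : G) (b : F) :
    ξ * η * ζ * FreeGroup.lift ![ξ, η, ζ] (word b) = 1 ↔ ξ * η * ζ = 1 := by
  have e : FreeGroup.lift ![ξ, η, ζ] (word b) =
      ((FreeGroup.lift ![ξ, η, ζ] b)⁻¹ * (ξ * η * ζ)⁻¹ * FreeGroup.lift ![ξ, η, ζ] b) *
        (ξ * η * ζ)⁻¹ *
        ((FreeGroup.lift ![ξ, η, ζ] b)⁻¹ * (ξ * η * ζ)⁻¹ * FreeGroup.lift ![ξ, η, ζ] b)⁻¹ *
        (ξ * η * ζ) := by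
    rw [word]
    simp only [map_mul, map_inv, lift_xyz]
  rw [e]
  generalize ξ * η * ζ = a
  generalize FreeGroup.lift ![ξ, η, ζ] b = t
  constructor
  · intro h
    have hc : orderOf (t⁻¹ * a * t) = orderOf a := by
      have : t⁻¹ * a * t = MulAut.conj t⁻¹ a := by simp
      rw [this]
      exact MulEquiv.orderOf_eq _ _
    refine baumslag hc ?_
    have h2 : a * (t⁻¹ * a⁻¹ * t) * a⁻¹ * (t⁻¹ * a * t) * a = 1 := by
      rw [← h]; group
    have h3 : (t⁻¹ * a * t)⁻¹ * a⁻¹ * (t⁻¹ * a * t) = a⁻¹ * a⁻¹ := by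
      calc (t⁻¹ * a * t)⁻¹ * a⁻¹ * (t⁻¹ * a * t)
          = a⁻¹ * (a * (t⁻¹ * a⁻¹ * t) * a⁻¹ * (t⁻¹ * a * t) * a) * a⁻¹ := by group
        _ = a⁻¹ * a⁻¹ := by rw [h2, mul_one]
    calc (t⁻¹ * a * t)⁻¹ * a * (t⁻¹ * a * t)
        = ((t⁻¹ * a * t)⁻¹ * a⁻¹ * (t⁻¹ * a * t))⁻¹ := by group
      _ = a ^ 2 := by rw [h3, sq, mul_inv_rev, inv_inv]
  · rintro rfl
    simp

theorem admissible_word (p q r : ℕ) (b : F) (n : ℕ) :
    Admissible p q r (word b) n ↔ Admissible p q r 1 n := by
  unfold Admissible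
  refine and_congr_right fun _ => exists_congr fun ξ => exists_congr fun η => exists_congr fun ζ => ?_
  rw [word_relation, map_one, mul_one]

theorem le_five_of_admissible {n : ℕ} (h : Admissible 2 3 5 1 n) : n = 5 := by
  obtain ⟨hn, ξ, η, ζ, hgen, h2, h3, h5, h⟩ := h
  rw [map_one, mul_one] at h
  have hξ : ξ * ξ = 1 := by rw [← sq, h2]
  have hξi : ξ⁻¹ = ξ := inv_eq_of_mul_eq_one_left hξ
  -- `c = ξη = ζ⁻¹`
  have hc : ξ * η = ζ⁻¹ := eq_inv_of_mul_eq_one_left h
  have hη : η = ξ * (ξ * η) := by rw [← mul_assoc, hξ, one_mul]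
  have hζ : ζ = (ξ * η)⁻¹ := by rw [hc, inv_inv]
  have hgen' : Subgroup.closure {ξ, ξ * η} = ⊤ := by
    rw [eq_top_iff, ← hgen, Subgroup.closure_le]
    have hx : ξ ∈ Subgroup.closure {ξ, ξ * η} := Subgroup.subset_closure (by simp)
    have hxy : ξ * η ∈ Subgroup.closure {ξ, ξ * η} := Subgroup.subset_closure (by simp)
    have hy : η ∈ Subgroup.closure {ξ, ξ * η} := by
      have := Subgroup.mul_mem _ hx hxy
      rwa [← hη] at this
    have hz : ζ ∈ Subgroup.closure {ξ, ξ * η} := by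
      have := Subgroup.inv_mem _ hxy
      rwa [← hζ] at this
    intro g hg
    rcases hg with h | h | h
    · rw [h]; exact hx
    · rw [h]; exact hy
    · have h' : g = ζ := h
      rw [h']; exact hz
  have hcard := card_le_sixty (x := ξ) (c := ξ * η) hξ (by rw [← hη]; exact h3)
    (by rw [hc, inv_pow, h5, inv_one]) hgen'
  have : Nontrivial (Fin n) := Fin.nontrivial_iff_two_le.2 (by omega)
  have hA : 2 * Nat.card (alternatingGroup (Fin n)) = n.factorial := by
    rw [two_mul_nat_card_alternatingGroup, Nat.card_perm, Nat.card_eq_fintype_card (α := Fin n),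
      Fintype.card_fin]
  have hn5 : n ≤ 5 := by
    by_contra hcon
    have : Nat.factorial 6 ≤ n.factorial := Nat.factorial_le (by omega)
    have h6 : Nat.factorial 6 = 720 := by decide
    omega
  by_contra hne
  have hn4 : n = 3 ∨ n = 4 := by omega
  -- then `5` does not divide the order of the group, so everything is trivial
  have hcop : Nat.Coprime 5 (Nat.card (alternatingGroup (Fin n))) := by
    rcases hn4 with rfl | rfl
    · have : Nat.factorial 3 = 6 := by decide
      rw [this] at hA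
      have : Nat.card (alternatingGroup (Fin 3)) = 3 := by omega
      rw [this]; norm_num
    · have : Nat.factorial 4 = 24 := by decide
      rw [this] at hA
      have : Nat.card (alternatingGroup (Fin 4)) = 12 := by omega
      rw [this]; norm_num
  have hζ1 : ζ = 1 := by
    have ho : orderOf ζ ∣ 5 := orderOf_dvd_of_pow_eq_one h5
    have ho' : orderOf ζ ∣ Nat.card (alternatingGroup (Fin n)) := orderOf_dvd_natCard ζ
    have := Nat.dvd_gcd ho ho'
    rw [Nat.Coprime.gcd_eq_one hcop] at this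
    exact orderOf_eq_one_iff.1 (Nat.dvd_one.1 this)
  have hξη : ξ * η = 1 := by rw [hc, hζ1, inv_one]
  have hη1 : η = ξ := by
    rw [hη, hξη, mul_one]
  have hξ1 : ξ = 1 := by
    have : ξ ^ 3 = 1 := by rw [← hη1]; exact h3
    rw [pow_succ, h2, one_mul] at this
    exact this
  rw [hη1, hζ1, hξ1] at hgen
  have hbot : (⊤ : Subgroup (alternatingGroup (Fin n))) = ⊥ := by
    rw [← hgen]
    simp
  have hc1 : Nat.card (alternatingGroup (Fin n)) = 1 := by
    rw [← Subgroup.card_top, hbot, Subgroup.card_bot]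
  rcases hn4 with rfl | rfl
  · have : Nat.factorial 3 = 6 := by decide
    omega
  · have : Nat.factorial 4 = 24 := by decide
    omega

theorem admissible_five : Admissible 2 3 5 1 5 := by
  let x0 : Equiv.Perm (Fin 5) := c[0, 1] * c[2, 3]
  let y0 : Equiv.Perm (Fin 5) := c[1, 3, 4]
  have hx0 : x0 ∈ alternatingGroup (Fin 5) := by
    rw [Equiv.Perm.mem_alternatingGroup]; decide
  have hy0 : y0 ∈ alternatingGroup (Fin 5) := by
    rw [Equiv.Perm.mem_alternatingGroup]; decide
  let x : alternatingGroup (Fin 5) := ⟨x0, hx0⟩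
  let y : alternatingGroup (Fin 5) := ⟨y0, hy0⟩
  let z : alternatingGroup (Fin 5) := (x * y)⁻¹
  have h2 : x ^ 2 = 1 := Subtype.ext (by change x0 ^ 2 = 1; decide)
  have h3 : y ^ 3 = 1 := Subtype.ext (by change y0 ^ 3 = 1; decide)
  have h5 : z ^ 5 = 1 := Subtype.ext (by change ((x0 * y0)⁻¹) ^ 5 = 1; decide +kernel)
  have n2 : x ≠ 1 := fun h => by
    have : x0 = 1 := congrArg Subtype.val h
    revert this; decide
  have n3 : y ≠ 1 := fun h => by
    have : y0 = 1 := congrArg Subtype.val h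
    revert this; decide
  have n5 : z ≠ 1 := fun h => by
    have : (x0 * y0)⁻¹ = 1 := congrArg Subtype.val h
    revert this; decide
  refine ⟨by norm_num, x, y, z, ?_, h2, h3, h5, ?_⟩
  · set H := Subgroup.closure {x, y, z} with hH
    have f2 : Fact (Nat.Prime 2) := ⟨by norm_num⟩
    have f3 : Fact (Nat.Prime 3) := ⟨by norm_num⟩
    have f5 : Fact (Nat.Prime 5) := ⟨by norm_num⟩
    have o2 : orderOf x = 2 := orderOf_eq_prime h2 n2
    have o3 : orderOf y = 3 := orderOf_eq_prime h3 n3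
    have o5 : orderOf z = 5 := orderOf_eq_prime h5 n5
    have hx : x ∈ H := Subgroup.subset_closure (by simp)
    have hy : y ∈ H := Subgroup.subset_closure (by simp)
    have hz : z ∈ H := Subgroup.subset_closure (by simp)
    have d2 := Subgroup.orderOf_dvd_natCard H hx
    have d3 := Subgroup.orderOf_dvd_natCard H hy
    have d5 := Subgroup.orderOf_dvd_natCard H hz
    rw [o2] at d2
    rw [o3] at d3
    rw [o5] at d5
    have hA : 2 * Nat.card (alternatingGroup (Fin 5)) = Nat.factorial 5 := by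
      rw [two_mul_nat_card_alternatingGroup, Nat.card_perm, Nat.card_eq_fintype_card (α := Fin 5),
        Fintype.card_fin]
    have h120 : Nat.factorial 5 = 120 := by decide
    have hmul := H.card_mul_index
    have hpos : 0 < H.index := Nat.pos_of_ne_zero H.index_ne_zero_of_finite
    have hposH : 0 < Nat.card H := Nat.card_pos
    have hidx : H.index = 1 ∨ H.index = 2 := by
      obtain ⟨m, hm⟩ : 30 ∣ Nat.card H := by omega
      have hm0 : m ≠ 0 := by rintro rfl; omega
      have : m * H.index = 2 := by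
        have : 30 * (m * H.index) = 60 := by rw [← mul_assoc, ← hm]; omega
        omega
      have hle : H.index ≤ 2 := Nat.le_of_dvd (by norm_num) ⟨m, by rw [← this, mul_comm]⟩
      omega
    rcases hidx with h1 | h1
    · exact Subgroup.index_eq_one.1 h1
    · have hnorm : H.Normal := Subgroup.normal_of_index_eq_two h1
      rcases hnorm.eq_bot_or_eq_top with hb | ht
      · rw [hb] at hx
        exact absurd (Subgroup.mem_bot.1 hx) n2
      · exact ht
  · rw [map_one, mul_one]
    exact mul_inv_cancel _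

theorem admissible_set (b : F) : {n | Admissible 2 3 5 (word b) n} = {5} := by
  ext n
  rw [Set.mem_ofPred_eq, Set.mem_singleton_iff, admissible_word]
  constructor
  · exact le_five_of_admissible
  · rintro rfl
    exact admissible_five

/-- the words `u_b` are infinitely many different commutator words -/
theorem range_word_infinite : (Set.range word).Infinite := by
  let A : Equiv.Perm ℚ := Equiv.mulRight₀ (2 : ℚ) two_ne_zero
  let T : Equiv.Perm ℚ := Equiv.addRight (1 : ℚ)
  let φ : F →* Equiv.Perm ℚ := FreeGroup.lift ![A, T, T⁻¹]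
  have hxyz : φ xyz = A := by
    change FreeGroup.lift ![A, T, T⁻¹] xyz = A
    rw [lift_xyz, mul_assoc, mul_inv_cancel, mul_one]
  have hT : ∀ (k : ℕ) (q : ℚ), (T ^ k) q = q + k := by
    intro k
    induction k with
    | zero => intro q; simp
    | succ k ih =>
      intro q
      rw [pow_succ, Equiv.Perm.mul_apply, ih]
      simp [T]; ring
  have hTi : ∀ (k : ℕ) (q : ℚ), (T ^ k)⁻¹ q = q - k := by
    intro k q
    rw [Equiv.Perm.inv_eq_iff_eq, hT]; ring
  have hA : ∀ q : ℚ, A q = q * 2 := fun q => rfl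
  have hAi : ∀ q : ℚ, A⁻¹ q = q / 2 := by
    intro q
    rw [Equiv.Perm.inv_eq_iff_eq, hA]; ring
  have hb : ∀ k : ℕ, φ (FreeGroup.of 1 ^ k) = T ^ k := by
    intro k
    rw [map_pow]
    simp [φ]
  have hval : ∀ k : ℕ, φ (word (FreeGroup.of 1 ^ k)) 0 = -(k : ℚ) / 4 := by
    intro k
    rw [word]
    simp only [map_mul, map_inv, hxyz, hb]
    have e : (T ^ k)⁻¹ * A⁻¹ * T ^ k * A⁻¹ * ((T ^ k)⁻¹ * A⁻¹ * T ^ k)⁻¹ * A =
        (T ^ k)⁻¹ * A⁻¹ * T ^ k * A⁻¹ * (T ^ k)⁻¹ * A * T ^ k * A := by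
      group
    rw [e]
    simp only [Equiv.Perm.mul_apply, hA, hAi, hT, hTi]
    ring
  refine Set.infinite_of_injective_forall_mem (f := fun k : ℕ => word (FreeGroup.of 1 ^ k)) ?_
    (fun k => ⟨_, rfl⟩)
  intro k l hkl
  have h1 := hval k
  have h2 := hval l
  have h3 : word (FreeGroup.of 1 ^ k) = word (FreeGroup.of 1 ^ l) := hkl
  rw [h3, h2] at h1
  have : (k : ℚ) = l := by linarith
  exact_mod_cast this

end Pool.Agent.W_MP_73c65d_al
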