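import Pool.Agent.W_MP_73c65d_al.Ker27
import Pool.Agent.W_MP_73c65d_al.DefsM27

/-!
A positive proportion of the commutator words has no small admissible `n` for `(2, 3, 5)`.
-/

namespace Pool.Agent.W_MP_73c65d_al.Mea27

open Pool.Agent.W_MP_73c65d_al Pool.Agent.W_MP_73c65d_al.Win27 Pool.Agent.W_MP_73c65d_al.Inv27
  Pool.Agent.W_MP_73c65d_al.Ker27 Pool.Agent.W_MP_73c65d_al.Crt27

/-- The image of a coset of the derived subgroup in the quotients. -/
def toPi (s : Finset (Subgroup F)) (M : Subgroup F) (hM : ∀ K ∈ s, M ≤ K)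
    (x : commutator F ⧸ M.subgroupOf (commutator F)) (K : s) : F ⧸ (K : Subgroup F) :=
  Quotient.liftOn' x (fun w => ((w : F) : F ⧸ (K : Subgroup F))) fun a b h => by
    rw [QuotientGroup.eq]
    have h1 := QuotientGroup.leftRel_apply.1 h
    exact hM K K.2 (Subgroup.mem_subgroupOf.1 h1)

theorem toPi_mk (s : Finset (Subgroup F)) (M : Subgroup F) (hM : ∀ K ∈ s, M ≤ K)
    (w : commutator F) (K : s) :
    toPi s M hM (QuotientGroup.mk w) K = ((w : F) : F ⧸ (K : Subgroup F)) := rfl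

theorem toPi_surj (s : Finset (Subgroup F)) (hs : ∀ K ∈ s, Crt27.Top K) (M : Subgroup F)
    (hM : ∀ K ∈ s, M ≤ K) : Function.Surjective (toPi s M hM) := by
  classical
  intro y
  obtain ⟨u, hu, h⟩ := crt (fun K => if hK : K ∈ s then (y ⟨K, hK⟩).out else 1) s hs
  refine ⟨QuotientGroup.mk ⟨u, hu⟩, ?_⟩
  funext K
  rw [toPi_mk]
  have h1 := h K K.2
  rw [dif_pos K.2] at h1
  have h2 : ((y K).out : F ⧸ (K : Subgroup F)) = ((u : F) : F ⧸ (K : Subgroup F)) :=
    QuotientGroup.eq.2 h1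
  change ((u : F) : F ⧸ (K : Subgroup F)) = y K
  rw [← h2]
  exact Quotient.out_eq' (y K)

theorem toPi_inj (s : Finset (Subgroup F)) (M : Subgroup F) (hM : ∀ K ∈ s, M ≤ K)
    (hM2 : ∀ x, (∀ K ∈ s, x ∈ K) → x ∈ M) : Function.Injective (toPi s M hM) := by
  intro x y
  refine QuotientGroup.induction_on x fun a => ?_
  refine QuotientGroup.induction_on y fun b => ?_
  intro h
  rw [QuotientGroup.eq]
  refine Subgroup.mem_subgroupOf.2 (hM2 _ fun K hK => ?_)
  have h1 := congrFun h ⟨K, hK⟩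
  rw [toPi_mk, toPi_mk] at h1
  exact QuotientGroup.eq.1 h1

theorem one_sub_ge {t : ℝ} (h0 : 0 ≤ t) (h1 : t ≤ 1 / 2) : Real.exp (-(2 * t)) ≤ 1 - t := by
  rw [Real.exp_neg]
  have h2 : 1 + 2 * t ≤ Real.exp (2 * t) := by
    have := Real.add_one_le_exp (2 * t)
    linarith
  have h3 : (Real.exp (2 * t))⁻¹ ≤ (1 + 2 * t)⁻¹ := inv_anti₀ (by positivity) h2
  refine h3.trans ?_
  rw [inv_le_comm₀ (by positivity) (by linarith), ← one_div, div_le_iff₀ (by linarith)]
  nlinarith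

/-- The count of the good cosets. -/
theorem count (s : Finset (Subgroup F)) (hs : ∀ K ∈ s, Crt27.Top K)
    (hi : ∀ K ∈ s, K.FiniteIndex) (M : Subgroup F) (hM : ∀ K ∈ s, M ≤ K)
    (hM2 : ∀ x, (∀ K ∈ s, x ∈ K) → x ∈ M) (A : ∀ K : s, Set (F ⧸ (K : Subgroup F)))
    (a : Subgroup F → ℝ) (ha : ∀ K, 0 ≤ a K)
    (hA : ∀ K : s, a K * ((K : Subgroup F).index : ℝ) ≤ Nat.card (A K)) :
    (∏ K ∈ s, a K) * Nat.card (commutator F ⧸ M.subgroupOf (commutator F)) ≤
      Nat.card {x : commutator F ⧸ M.subgroupOf (commutator F) |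
        ∀ K : s, toPi s M hM x K ∈ A K} := by
  classical
  have hfin : ∀ K : s, Finite (F ⧸ (K : Subgroup F)) := fun K => by
    have := hi K K.2
    infer_instance
  have hbij : Function.Bijective (toPi s M hM) := ⟨toPi_inj s M hM hM2, toPi_surj s hs M hM⟩
  let e := Equiv.ofBijective _ hbij
  have hfinD : Finite (commutator F ⧸ M.subgroupOf (commutator F)) := Finite.of_equiv _ e.symm
  have c1 : Nat.card (commutator F ⧸ M.subgroupOf (commutator F)) =
      ∏ K : s, (K : Subgroup F).index := by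
    rw [Nat.card_congr e, Nat.card_pi]
    rfl
  let g : (∀ K : s, A K) → {x : commutator F ⧸ M.subgroupOf (commutator F) |
        ∀ K : s, toPi s M hM x K ∈ A K} := fun y =>
    ⟨e.symm fun K : s => (y K).1, fun K => by
      have h3 : toPi s M hM (e.symm fun K : s => (y K).1) = fun K : s => (y K).1 :=
        e.apply_symm_apply _
      rw [h3]
      exact (y K).2⟩
  have hg : Function.Injective g := by
    intro y z h
    have h4 : e.symm (fun K : s => (y K).1) = e.symm (fun K : s => (z K).1) :=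
      congrArg Subtype.val h
    have h3 := e.symm.injective h4
    funext K
    exact Subtype.ext (congrFun h3 K)
  have c2 := Nat.card_le_card_of_injective g hg
  rw [Nat.card_pi] at c2
  have c3 : (∏ K : s, a K) * ∏ K : s, ((K : Subgroup F).index : ℝ) ≤
      ∏ K : s, (Nat.card (A K) : ℝ) := by
    rw [← Finset.prod_mul_distrib]
    exact Finset.prod_le_prod (fun K _ => mul_nonneg (ha K) (Nat.cast_nonneg _)) fun K _ => hA K
  have c4 : ∏ K : s, a K = ∏ K ∈ s, a K := Finset.prod_coe_sort s a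
  rw [c1, ← c4]
  push_cast
  refine c3.trans ?_
  exact_mod_cast c2

theorem card_ne {K : Subgroup F} (hK : K.FiniteIndex) (h2 : 2 ≤ K.index) (z₀ : F ⧸ K) :
    Real.exp (-(2 * (1 / (K.index : ℝ)))) * (K.index : ℝ) ≤
      Nat.card {z : F ⧸ K | z ≠ z₀} := by
  classical
  have := Fintype.ofFinite (F ⧸ K)
  have h0 : Nat.card {z : F ⧸ K | z ≠ z₀} = K.index - 1 := by
    unfold Subgroup.index
    rw [Nat.card_eq_fintype_card, Nat.card_eq_fintype_card]
    exact Set.card_ne_eq _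
  rw [h0, Nat.cast_sub (by omega)]
  have h3 : (2 : ℝ) ≤ (K.index : ℝ) := by exact_mod_cast h2
  have h4 := one_sub_ge (t := 1 / (K.index : ℝ)) (by positivity)
    (one_div_le_one_div_of_le (by norm_num) h3)
  calc Real.exp (-(2 * (1 / (K.index : ℝ)))) * (K.index : ℝ)
      ≤ (1 - 1 / (K.index : ℝ)) * K.index := mul_le_mul_of_nonneg_right h4 (by positivity)
    _ = (K.index : ℝ) - (1 : ℕ) := by
        have : (K.index : ℝ) ≠ 0 := by linarith
        push_cast
        field_simp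

/-- All the kernels up to `N`. -/
noncomputable def KF (n : ℕ) : Finset (Subgroup F) :=
  if h : 5 ≤ n then (Kn_finite h).toFinset else ∅

theorem mem_KF {n : ℕ} {K : Subgroup F} : K ∈ KF n ↔ 5 ≤ n ∧ K ∈ Kn n := by
  unfold KF
  split_ifs with h
  · rw [Set.Finite.mem_toFinset]
    tauto
  · simp [h]

theorem sum_KF (n : ℕ) : ∑ K ∈ KF n, 1 / (K.index : ℝ) ≤ 2 * wt n := by
  by_cases h5 : 5 ≤ n
  · have hf : (0 : ℝ) < n.factorial := by exact_mod_cast n.factorial_pos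
    have h1 : ∀ K ∈ KF n, 1 / (K.index : ℝ) = 2 / n.factorial := by
      intro K hK
      have h2 := Kn_index h5 (mem_KF.1 hK).2
      have h3 : (2 : ℝ) * K.index = n.factorial := by exact_mod_cast h2
      have h4 : (K.index : ℝ) ≠ 0 := by
        intro h
        rw [h, mul_zero] at h3
        exact hf.ne h3
      rw [← h3]
      field_simp
    rw [Finset.sum_congr rfl h1, Finset.sum_const, nsmul_eq_mul]
    have h2 : (KF n).card = Nat.card (Kn n) := by
      unfold KF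
      rw [dif_pos h5, ← Set.ncard_eq_toFinset_card (Kn n) (Kn_finite h5)]
      rfl
    have h3 : ((KF n).card : ℝ) * n.factorial ≤ (inv 2 n : ℝ) * inv 3 n * inv 5 n := by
      rw [h2]
      exact_mod_cast Kn_card h5
    unfold wt
    rw [mul_div_assoc', mul_div_assoc', div_le_div_iff₀ hf (by positivity)]
    nlinarith [mul_le_mul_of_nonneg_right h3 (mul_pos two_pos hf).le]
  · have h1 : KF n = ∅ := by
      unfold KF
      rw [dif_neg h5]
    rw [h1, Finset.sum_empty]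
    exact mul_nonneg two_pos.le (wt_nonneg n)

theorem disj (a b : ℕ) : (Finset.Icc a b : Set ℕ).PairwiseDisjoint KF := by
  intro n _ m _ hnm
  rw [Function.onFun, Finset.disjoint_left]
  intro K hK hK'
  have h3 := mem_KF.1 hK
  have h4 := mem_KF.1 hK'
  have e1 := Kn_index h3.1 h3.2
  have e2 := Kn_index h4.1 h4.2
  rw [e1] at e2
  exact hnm ((Nat.factorial_inj (by omega)).1 e2)

theorem deg_unique {n m : ℕ} {K : Subgroup F} (hn : 5 ≤ n) (hm : 5 ≤ m) (h1 : K ∈ Kn n)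
    (h2 : K ∈ Kn m) : n = m := by
  have e1 := Kn_index hn h1
  have e2 := Kn_index hm h2
  rw [e1] at e2
  exact (Nat.factorial_inj (by omega)).1 e2

/-- The tail of the sum of the weights. -/
noncomputable def tail (n₀ : ℕ) : ℝ := ∑' n, wt (n + n₀)

open scoped Classical in
theorem sum_tail (n₀ N : ℕ) :
    ∑ K ∈ (Finset.Icc n₀ N).biUnion KF, 1 / (K.index : ℝ) ≤ 2 * tail n₀ := by
  classical
  calc ∑ K ∈ (Finset.Icc n₀ N).biUnion KF, 1 / (K.index : ℝ)
      = ∑ n ∈ Finset.Icc n₀ N, ∑ K ∈ KF n, 1 / (K.index : ℝ) := Finset.sum_biUnion (disj n₀ N)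
    _ ≤ ∑ n ∈ Finset.Icc n₀ N, 2 * wt n := Finset.sum_le_sum fun n _ => sum_KF n
    _ = 2 * ∑ n ∈ Finset.Icc n₀ N, wt n := by rw [Finset.mul_sum]
    _ ≤ 2 * tail n₀ := by
        refine mul_le_mul_of_nonneg_left ?_ two_pos.le
        have h1 : ∑ n ∈ Finset.Icc n₀ N, wt n = ∑ m ∈ Finset.range (N + 1 - n₀), wt (m + n₀) := by
          rw [Finset.range_eq_Ico, Finset.sum_Ico_add' (fun m => wt m) 0 (N + 1 - n₀) n₀]
          refine Finset.sum_congr ?_ fun _ _ => rfl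
          ext m
          simp only [Finset.mem_Icc, Finset.mem_Ico]
          omega
        rw [h1]
        exact ((summable_nat_add_iff n₀).2 summable_wt).sum_le_tsum _ fun n _ => wt_nonneg _

theorem tail_tendsto : Filter.Tendsto tail Filter.atTop (nhds 0) := tendsto_sum_nat_add wt

section Core

variable {s : Finset (Subgroup F)} {N : ℕ}

/-- The common part of the two statements: a finite set of kernels, two kinds of conditions. -/
theorem core (s C : Finset (Subgroup F)) (hs : ∀ K ∈ s, K ∈ Ks N) (h2 : ∀ K ∈ s, 2 ≤ K.index)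
    {T : ℝ} (hT : ∑ K ∈ s, 1 / (K.index : ℝ) ≤ T) (hC : ∀ K ∈ C, 1 ≤ K.index) {P : F → Prop}
    (hP : ∀ w ∈ commutator F, (∀ K ∈ s, K ∈ C → xyz * w ∈ K) →
      (∀ K ∈ s, K ∉ C → xyz * w ∉ K) → P w) :
    AtLeast (Real.exp (-(2 * T)) * ∏ K ∈ C, 1 / (K.index : ℝ)) P := by
  classical
  have ht : ∀ K ∈ s, Crt27.Top K := fun K hK => (hs K hK).1
  have hi : ∀ K ∈ s, K.FiniteIndex := by
    intro K hK
    obtain ⟨_, k, _, φ, rfl⟩ := hs K hK
    infer_instance
  obtain ⟨M', hM1', hM2', hM3'⟩ := exists_inf s fun K hK => ⟨(ht K hK).nor, hi K hK⟩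
  let M : Subgroup F := sInf (s : Set (Subgroup F))
  have hM : ∀ K ∈ s, M ≤ K := fun K hK => sInf_le hK
  have hMM : ∀ x, (∀ K ∈ s, x ∈ K) → x ∈ M := fun x hx => Subgroup.mem_sInf.2 hx
  have hMn : M.Normal := ⟨fun x hx g => hMM _ fun K hK => (ht K hK).nor.conj_mem _ (hM K hK hx) g⟩
  have hMf : M.FiniteIndex := Subgroup.finiteIndex_of_le (H := M') (le_sInf hM3')
  let A : ∀ K : s, Set (F ⧸ (K : Subgroup F)) := fun K =>
    if (K : Subgroup F) ∈ C then {z | z = ((xyz⁻¹ : F) : F ⧸ (K : Subgroup F))}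
      else {z | z ≠ ((xyz⁻¹ : F) : F ⧸ (K : Subgroup F))}
  let a : Subgroup F → ℝ := fun K =>
    if K ∈ C then 1 / (K.index : ℝ) else Real.exp (-(2 * (1 / (K.index : ℝ))))
  have ha : ∀ K, 0 ≤ a K := by
    intro K
    change 0 ≤ (if K ∈ C then 1 / (K.index : ℝ) else Real.exp (-(2 * (1 / (K.index : ℝ)))))
    split_ifs <;> positivity
  have hA : ∀ K : s, a K * ((K : Subgroup F).index : ℝ) ≤ Nat.card (A K) := by
    intro K
    have hK0 : ((K : Subgroup F).index : ℝ) ≠ 0 := by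
      have := h2 K K.2
      have h3 : (2 : ℝ) ≤ ((K : Subgroup F).index : ℝ) := by exact_mod_cast this
      linarith
    by_cases hc : (K : Subgroup F) ∈ C
    · have e1 : a K = 1 / ((K : Subgroup F).index : ℝ) := if_pos hc
      have e2 : A K = {z | z = ((xyz⁻¹ : F) : F ⧸ (K : Subgroup F))} := if_pos hc
      rw [e1, e2, one_div, inv_mul_cancel₀ hK0]
      have e3 : Nat.card {z : F ⧸ (K : Subgroup F) | z = ((xyz⁻¹ : F) : F ⧸ (K : Subgroup F))} =
          1 := by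
        have : {z : F ⧸ (K : Subgroup F) | z = ((xyz⁻¹ : F) : F ⧸ (K : Subgroup F))} =
            {((xyz⁻¹ : F) : F ⧸ (K : Subgroup F))} := by
          ext z
          simp
        rw [this]
        simp
      rw [e3]
      norm_num
    · have e1 : a K = Real.exp (-(2 * (1 / ((K : Subgroup F).index : ℝ)))) := if_neg hc
      have e2 : A K = {z | z ≠ ((xyz⁻¹ : F) : F ⧸ (K : Subgroup F))} := if_neg hc
      rw [e1, e2]
      exact card_ne (hi K K.2) (h2 K K.2) _
  have hcount := count s ht hi M hM hMM A a ha hA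
  refine ⟨M, hMn, hMf, _, le_trans (mul_le_mul_of_nonneg_right ?_ (Nat.cast_nonneg _)) hcount,
    fun w hw => hP w w.2 ?_ ?_⟩
  · have h3 : ∏ K ∈ s, a K = (∏ K ∈ s with K ∈ C, 1 / (K.index : ℝ)) *
        ∏ K ∈ s with K ∉ C, Real.exp (-(2 * (1 / (K.index : ℝ)))) := Finset.prod_ite _ _
    rw [h3, mul_comm]
    refine mul_le_mul ?_ ?_ (Real.exp_pos _).le (Finset.prod_nonneg fun K _ => by positivity)
    · have h4 : (s.filter (fun K => K ∈ C)) ⊆ C := fun K hK => (Finset.mem_filter.1 hK).2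
      rw [← Finset.prod_sdiff h4]
      refine mul_le_of_le_one_left (Finset.prod_nonneg fun K _ => by positivity) ?_
      refine Finset.prod_le_one (fun K _ => by positivity) fun K hK => ?_
      have h5 : (1 : ℝ) ≤ K.index := by
        exact_mod_cast hC K (Finset.mem_sdiff.1 hK).1
      rw [div_le_one (by linarith)]
      exact h5
    · rw [← Real.exp_sum]
      refine Real.exp_le_exp.2 ?_
      rw [Finset.sum_neg_distrib, ← Finset.mul_sum]
      have h4 : ∑ K ∈ s with K ∉ C, 1 / (K.index : ℝ) ≤ ∑ K ∈ s, 1 / (K.index : ℝ) :=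
        Finset.sum_le_sum_of_subset_of_nonneg (Finset.filter_subset _ _) fun K _ _ => by positivity
      linarith
  · intro K hK hc
    have h3 : toPi s M hM (QuotientGroup.mk w) ⟨K, hK⟩ ∈ A ⟨K, hK⟩ := hw ⟨K, hK⟩
    have e2 : A ⟨K, hK⟩ = {z | z = ((xyz⁻¹ : F) : F ⧸ K)} := if_pos hc
    rw [e2, toPi_mk] at h3
    have h3' : ((w : F) : F ⧸ K) = ((xyz⁻¹ : F) : F ⧸ K) := h3
    have h4 := QuotientGroup.eq.1 h3'.symm
    rwa [inv_inv] at h4
  · intro K hK hc hmem
    have h3 : toPi s M hM (QuotientGroup.mk w) ⟨K, hK⟩ ∈ A ⟨K, hK⟩ := hw ⟨K, hK⟩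
    have e2 : A ⟨K, hK⟩ = {z | z ≠ ((xyz⁻¹ : F) : F ⧸ K)} := if_neg hc
    rw [e2, toPi_mk] at h3
    refine h3 ?_
    refine (QuotientGroup.eq.2 ?_).symm
    rwa [inv_inv]

end Core

theorem kernel_of_admissible {w : F} (hw : w ∈ commutator F) {n : ℕ}
    (h : Admissible 2 3 5 w n) : 5 ≤ n ∧ ∃ K ∈ Kn n, xyz * w ∈ K := by
  have h5 := five_le Nat.prime_two Nat.prime_three Nat.prime_five (by norm_num) (by norm_num)
    (by norm_num) hw h
  obtain ⟨_, ξ, η, ζ, hc, a1, a2, a3, a4⟩ := h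
  refine ⟨h5, _, ⟨ξ, η, ζ, hc, a1, a2, a3, rfl⟩, ?_⟩
  rw [MonoidHom.mem_ker, lift_xyz]
  exact a4

/-- Almost all words have only finitely many admissible `n`. -/
theorem finite_part (ε : ℝ) (hε : 0 < ε) : ∃ n₀ : ℕ, ∀ N : ℕ, AtLeast (1 - ε)
    (fun w => ∀ n, n₀ ≤ n → n ≤ N → ¬ Admissible 2 3 5 w n) := by
  classical
  have h1 : ∀ᶠ n₀ in Filter.atTop, 4 * tail n₀ < ε := by
    have := (tail_tendsto.const_mul 4)
    rw [mul_zero] at this
    exact this.eventually_lt_const hε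
  obtain ⟨n₀, hn₀, h50⟩ := (h1.and (Filter.eventually_ge_atTop 5)).exists
  refine ⟨n₀, fun N => ?_⟩
  have hmem : ∀ K ∈ (Finset.Icc n₀ N).biUnion KF, ∃ n, 5 ≤ n ∧ n ≤ N ∧ K ∈ Kn n := by
    intro K hK
    obtain ⟨n, hn, hK⟩ := Finset.mem_biUnion.1 hK
    exact ⟨n, (mem_KF.1 hK).1, (Finset.mem_Icc.1 hn).2, (mem_KF.1 hK).2⟩
  have h := core (N := N) ((Finset.Icc n₀ N).biUnion KF) ∅
    (fun K hK => by
      obtain ⟨n, h5, hn, hK⟩ := hmem K hK
      exact Kn_sub hn h5 hK)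
    (fun K hK => by
      obtain ⟨n, h5, hn, hK⟩ := hmem K hK
      have h3 := Kn_index h5 hK
      have h4 : 5 ≤ n.factorial := h5.trans (Nat.self_le_factorial n)
      omega) (sum_tail n₀ N) (by simp)
    (P := fun w => ∀ n, n₀ ≤ n → n ≤ N → ¬ Admissible 2 3 5 w n)
    (fun w hw _ h3 n hn0 hn had => by
      obtain ⟨h5, K, hK, hxK⟩ := kernel_of_admissible hw had
      exact h3 K (Finset.mem_biUnion.2 ⟨n, Finset.mem_Icc.2 ⟨hn0, hn⟩, mem_KF.2 ⟨h5, hK⟩⟩)
        (by simp) hxK)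
  obtain ⟨M, hM1, hM2, U, hU, hw⟩ := h
  refine ⟨M, hM1, hM2, U, le_trans (mul_le_mul_of_nonneg_right ?_ (Nat.cast_nonneg _)) hU, hw⟩
  rw [Finset.prod_empty, mul_one]
  have h6 := Real.add_one_le_exp (-(2 * (2 * tail n₀)))
  linarith

/-- Every finite set of degrees occurs with positive proportion. -/
theorem law_part (S : Finset ℕ)
    (hS : ∀ n ∈ S, 5 ≤ n ∧ Generated 2 3 5 (alternatingGroup (Fin n))) :
    ∃ c : ℝ, 0 < c ∧ ∀ N : ℕ, AtLeast c (fun w => ∀ n ≤ N, (Admissible 2 3 5 w n ↔ n ∈ S)) := by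
  classical
  have hch : ∀ n : ℕ, ∃ K : Subgroup F, n ∈ S → K ∈ Kn n := by
    intro n
    by_cases hn : n ∈ S
    · obtain ⟨_, ξ, η, ζ, hc, a1, a2, a3⟩ := hS n hn
      exact ⟨_, fun _ => ⟨ξ, η, ζ, hc, a1, a2, a3, rfl⟩⟩
    · exact ⟨⊤, fun h => absurd h hn⟩
  choose Kc hKc using hch
  let C : Finset (Subgroup F) := S.image Kc
  have hCi : ∀ K ∈ C, 1 ≤ K.index := by
    intro K hK
    obtain ⟨n, hn, rfl⟩ := Finset.mem_image.1 hK
    have h3 := Kn_index (hS n hn).1 (hKc n hn)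
    have h4 := n.factorial_pos
    omega
  refine ⟨Real.exp (-(2 * (2 * tail 5))) * ∏ K ∈ C, 1 / (K.index : ℝ),
    mul_pos (Real.exp_pos _) (Finset.prod_pos fun K hK => ?_), fun N => ?_⟩
  · have : (1 : ℝ) ≤ K.index := by exact_mod_cast hCi K hK
    positivity
  let s : Finset (Subgroup F) :=
    ((Finset.Icc 5 N).biUnion KF).filter (fun K => K ∈ C ∨ ∀ n ∈ S, K ∉ Kn n)
  have hmem : ∀ K ∈ s, ∃ n, 5 ≤ n ∧ n ≤ N ∧ K ∈ Kn n := by
    intro K hK
    obtain ⟨n, hn, hK⟩ := Finset.mem_biUnion.1 (Finset.mem_filter.1 hK).1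
    exact ⟨n, (mem_KF.1 hK).1, (Finset.mem_Icc.1 hn).2, (mem_KF.1 hK).2⟩
  refine core (N := N) s C
    (fun K hK => by
      obtain ⟨n, h5, hn, hK⟩ := hmem K hK
      exact Kn_sub hn h5 hK)
    (fun K hK => by
      obtain ⟨n, h5, hn, hK⟩ := hmem K hK
      have h3 := Kn_index h5 hK
      have h4 : 5 ≤ n.factorial := h5.trans (Nat.self_le_factorial n)
      omega)
    ((Finset.sum_le_sum_of_subset_of_nonneg (Finset.filter_subset _ _)
      fun K _ _ => by positivity).trans (sum_tail 5 N)) hCi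
    (fun w hw hin hout n hn => ⟨fun had => ?_, fun hnS => ?_⟩)
  · obtain ⟨h5, K, hK, hxK⟩ := kernel_of_admissible hw had
    by_contra hnS
    have hno : ∀ m ∈ S, K ∉ Kn m := fun m hm hKm =>
      hnS (deg_unique (hS m hm).1 h5 hKm hK ▸ hm)
    have hKs : K ∈ s := Finset.mem_filter.2
      ⟨Finset.mem_biUnion.2 ⟨n, Finset.mem_Icc.2 ⟨h5, hn⟩, mem_KF.2 ⟨h5, hK⟩⟩, Or.inr hno⟩
    have hKC : K ∉ C := by
      intro hKC
      obtain ⟨m, hm, hKm⟩ := Finset.mem_image.1 hKC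
      exact hno m hm (hKm ▸ hKc m hm)
    exact hout K hKs hKC hxK
  · have h5 := (hS n hnS).1
    have hK := hKc n hnS
    have hKC : Kc n ∈ C := Finset.mem_image_of_mem _ hnS
    have hKs : Kc n ∈ s := Finset.mem_filter.2
      ⟨Finset.mem_biUnion.2 ⟨n, Finset.mem_Icc.2 ⟨h5, hn⟩, mem_KF.2 ⟨h5, hK⟩⟩, Or.inl hKC⟩
    have hx := hin _ hKs hKC
    obtain ⟨ξ, η, ζ, hc, a1, a2, a3, hker⟩ := hK
    rw [hker, MonoidHom.mem_ker, lift_xyz] at hx
    exact ⟨by omega, ξ, η, ζ, hc, a1, a2, a3, hx⟩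

end Pool.Agent.W_MP_73c65d_al.Mea27
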