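import Pool.Agent.W_MP_73c65d_al.DefsW27
import Pool.Agent.W_MP_73c65d_al.Crt27

/-!
The finite quotients of `⟨x, y, z | x^p, y^q, z^r, xyz u⟩` up to any given size can be prescribed.
-/

namespace Pool.Agent.W_MP_73c65d_al.Win27

open Pool.Agent.W_MP_73c65d_al Pool.Agent.W_MP_73c65d_al.Crt27

theorem lift_surj {G : Type*} [Group G] {ξ η ζ : G} (h : Subgroup.closure {ξ, η, ζ} = ⊤) :
    Function.Surjective (FreeGroup.lift ![ξ, η, ζ] : F →* G) := by
  rw [← MonoidHom.range_eq_top, FreeGroup.range_lift_eq_closure, ← h]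
  congr 1
  ext x
  simp only [Set.mem_range, Fin.exists_fin_succ, Set.mem_insert_iff, Set.mem_singleton_iff]
  simp
  tauto

theorem lift_xyz {G : Type*} [Group G] (ξ η ζ : G) (u : F) :
    (FreeGroup.lift ![ξ, η, ζ] : F →* G) (xyz * u) =
      ξ * η * ζ * FreeGroup.lift ![ξ, η, ζ] u := by
  simp [xyz]

theorem hom_eq_lift {G : Type*} [Group G] (φ : F →* G) :
    φ = FreeGroup.lift ![φ (FreeGroup.of 0), φ (FreeGroup.of 1), φ (FreeGroup.of 2)] := by
  refine FreeGroup.ext_hom _ _ fun i => ?_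
  rw [FreeGroup.lift_apply_of]
  fin_cases i <;> rfl

theorem IsQuotient.map {p q r : ℕ} {u : F} {G H : Type*} [Group G] [Group H]
    (h : IsQuotient p q r u G) (f : G →* H) (hf : Function.Surjective f) :
    IsQuotient p q r u H := by
  obtain ⟨ξ, η, ζ, hc, h1, h2, h3, h4⟩ := h
  refine ⟨f ξ, f η, f ζ, ?_, by rw [← map_pow, h1, map_one], by rw [← map_pow, h2, map_one],
    by rw [← map_pow, h3, map_one], ?_⟩
  · have h5 : (Subgroup.closure {ξ, η, ζ}).map f = Subgroup.closure (f '' {ξ, η, ζ}) :=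
      f.map_closure _
    rw [hc, Set.image_insert_eq, Set.image_insert_eq, Set.image_singleton] at h5
    rw [← h5]
    exact Subgroup.map_top_of_surjective f hf
  · have h5 : (f.comp (FreeGroup.lift ![ξ, η, ζ]) : F →* H) = FreeGroup.lift ![f ξ, f η, f ζ] := by
      refine FreeGroup.ext_hom _ _ fun i => ?_
      rw [MonoidHom.comp_apply, FreeGroup.lift_apply_of, FreeGroup.lift_apply_of]
      fin_cases i <;> rfl
    rw [← h5, MonoidHom.comp_apply, ← map_mul, ← map_mul, ← map_mul, h4, map_one]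

theorem pow_coprime {G : Type*} [Group G] {a : G} {m n : ℕ} (h : Nat.Coprime m n)
    (hm : a ^ m = 1) (hn : a ^ n = 1) : a = 1 := by
  have h1 := orderOf_dvd_of_pow_eq_one hm
  have h2 := orderOf_dvd_of_pow_eq_one hn
  rw [← orderOf_eq_one_iff]
  exact Nat.eq_one_of_dvd_coprimes h h1 h2

/-- A commutative quotient is trivial. -/
theorem comm_trivial {p q r : ℕ} (hp : p.Prime) (hq : q.Prime) (hr : r.Prime) (hpq : p ≠ q)
    (hpr : p ≠ r) (hqr : q ≠ r) {w : F} (hw : w ∈ commutator F) {Q : Type*} [CommGroup Q]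
    (h : IsQuotient p q r w Q) (g : Q) : g = 1 := by
  obtain ⟨ξ, η, ζ, hc, h1, h2, h3, h4⟩ := h
  have h5 : (FreeGroup.lift ![ξ, η, ζ] : F →* Q) w = 1 :=
    Abelianization.commutator_subset_ker _ hw
  rw [h5, mul_one] at h4
  have cpq := (Nat.coprime_primes hp hq).2 hpq
  have cpr := (Nat.coprime_primes hp hr).2 hpr
  have cqr := (Nat.coprime_primes hq hr).2 hqr
  have e1 : ξ = 1 := by
    have h6 : ξ = (η * ζ)⁻¹ := by
      rw [mul_assoc] at h4
      exact eq_inv_of_mul_eq_one_left h4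
    have h7 : ξ ^ (q * r) = 1 := by
      rw [h6, inv_pow, mul_pow, pow_mul, h2, one_pow, mul_comm q r, pow_mul, h3, one_pow, mul_one,
        inv_one]
    exact pow_coprime (Nat.Coprime.mul_right cpq cpr) h1 h7
  rw [e1, one_mul] at h4
  have e2 : η = 1 := by
    have h6 : η = ζ⁻¹ := eq_inv_of_mul_eq_one_left h4
    have h7 : η ^ r = 1 := by rw [h6, inv_pow, h3, inv_one]
    exact pow_coprime cqr h2 h7
  rw [e2, one_mul] at h4
  have h6 : g ∈ Subgroup.closure {ξ, η, ζ} := by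
    rw [hc]
    trivial
  rw [e1, e2, h4] at h6
  have h7 : ({1, 1, 1} : Set Q) = {1} := by simp
  rw [h7, Subgroup.closure_singleton_one] at h6
  exact Subgroup.mem_bot.1 h6

/-- The group is perfect. -/
theorem perfect {p q r : ℕ} (hp : p.Prime) (hq : q.Prime) (hr : r.Prime) (hpq : p ≠ q)
    (hpr : p ≠ r) (hqr : q ≠ r) {w : F} (hw : w ∈ commutator F) {G : Type*} [Group G]
    (h : IsQuotient p q r w G) : commutator G = ⊤ := by
  rw [eq_top_iff]
  intro x _
  have h1 := comm_trivial hp hq hr hpq hpr hqr hw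
    (IsQuotient.map h (Abelianization.of (G := G)) (QuotientGroup.mk'_surjective _))
    (Abelianization.of x)
  rw [← Abelianization.ker_of G]
  exact h1

theorem not_comm {G : Type*} [Group G] [Nontrivial G] (h : commutator G = ⊤) :
    ¬ ∀ a b : G, a * b = b * a := by
  intro hc
  obtain ⟨x, hx⟩ := exists_ne (1 : G)
  have h1 : commutator G ≤ ⊥ := by
    rw [commutator_def, Subgroup.commutator_le]
    intro a _ b _
    rw [Subgroup.mem_bot, commutatorElement_eq_one_iff_mul_comm]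
    exact hc a b
  rw [h] at h1
  exact hx (Subgroup.mem_bot.1 (h1 (Subgroup.mem_top x)))

/-! ### The kernels -/

/-- The kernels of small nonabelian simple quotients. -/
def Ks (N : ℕ) : Set (Subgroup F) :=
  {K | Top K ∧ ∃ k ≤ N, ∃ φ : F →* Equiv.Perm (Fin k), K = φ.ker}

/-- The kernels of the maps onto the alternating groups of degree in `S`. -/
def Tp (S : Set ℕ) (K : Subgroup F) : Prop :=
  ∃ n ∈ S, 5 ≤ n ∧ ∃ φ : F →* alternatingGroup (Fin n), Function.Surjective φ ∧ K = φ.ker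

theorem Ks_finite (N : ℕ) : (Ks N).Finite := by
  have h : ∀ k : ℕ, Finite (F →* Equiv.Perm (Fin k)) := fun k =>
    Finite.of_equiv (Fin 3 → Equiv.Perm (Fin k)) FreeGroup.lift
  refine ((Set.finite_Iic N).biUnion fun k _ =>
    Set.finite_range (fun φ : F →* Equiv.Perm (Fin k) => φ.ker)).subset ?_
  rintro K ⟨_, k, hk, φ, rfl⟩
  exact Set.mem_biUnion (Set.mem_Iic.2 hk) ⟨φ, rfl⟩

theorem exists_word (N : ℕ) (S : Set ℕ) :
    ∃ u ∈ commutator F, ∀ K ∈ Ks N, (xyz * u ∈ K ↔ Tp S K) := by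
  classical
  let τ : Subgroup F → F := fun K =>
    if Tp S K then xyz⁻¹ else if h : xyz ∈ K ∧ ∃ a, a ∉ K then h.2.choose else 1
  obtain ⟨u, hu, h⟩ := crt τ (Ks_finite N).toFinset fun K hK => ((Ks_finite N).mem_toFinset.1 hK).1
  refine ⟨u, hu, fun K hK => ?_⟩
  have hT := hK.1
  have h1 : (τ K)⁻¹ * u ∈ K := h K ((Ks_finite N).mem_toFinset.2 hK)
  by_cases c : Tp S K
  · have h2 : τ K = xyz⁻¹ := if_pos c
    rw [h2, inv_inv] at h1
    exact ⟨fun _ => c, fun _ => h1⟩
  · refine ⟨fun h3 => ?_, fun h3 => absurd h3 c⟩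
    exfalso
    by_cases ha : xyz ∈ K
    · have hex : ∃ a, a ∉ K := by
        by_contra hcon
        push Not at hcon
        exact hT.ne (eq_top_iff.2 fun x _ => hcon x)
      have h2 : τ K = (⟨ha, hex⟩ : xyz ∈ K ∧ ∃ a, a ∉ K).2.choose := by
        change (if Tp S K then xyz⁻¹ else if h : xyz ∈ K ∧ ∃ a, a ∉ K then h.2.choose else 1) = _
        rw [if_neg c, dif_pos ⟨ha, hex⟩]
      have h4 := hex.choose_spec
      have h5 : u ∈ K := by
        have := K.mul_mem (K.inv_mem ha) h3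
        rwa [inv_mul_cancel_left] at this
      have h6 : (τ K)⁻¹ ∈ K := by
        have := K.mul_mem h1 (K.inv_mem h5)
        rwa [mul_inv_cancel_right] at this
      have h7 := K.inv_mem h6
      rw [inv_inv, h2] at h7
      exact h4 h7
    · have h2 : τ K = 1 := by
        change (if Tp S K then xyz⁻¹ else if h : xyz ∈ K ∧ ∃ a, a ∉ K then h.2.choose else 1) = _
        rw [if_neg c, dif_neg (fun h => ha h.1)]
      rw [h2, inv_one, one_mul] at h1
      refine ha ?_
      have := K.mul_mem h3 (K.inv_mem h1)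
      rwa [mul_inv_cancel_right] at this

theorem exists_inf (s : Finset (Subgroup F)) (hs : ∀ K ∈ s, K.Normal ∧ K.FiniteIndex) :
    ∃ M : Subgroup F, M.Normal ∧ M.FiniteIndex ∧ ∀ K ∈ s, M ≤ K := by
  classical
  induction s using Finset.induction_on with
  | empty => exact ⟨⊤, inferInstance, inferInstance, by simp⟩
  | insert K s hKs ih =>
    obtain ⟨M, h1, h2, h3⟩ := ih fun H h => hs H (Finset.mem_insert_of_mem h)
    obtain ⟨h4, h5⟩ := hs K (Finset.mem_insert_self K s)
    refine ⟨M ⊓ K, inferInstance, inferInstance, fun H hH => ?_⟩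
    rcases Finset.mem_insert.1 hH with rfl | hH
    · exact inf_le_right
    · exact inf_le_left.trans (h3 H hH)

theorem exists_M (N : ℕ) :
    ∃ M : Subgroup F, M.Normal ∧ M.FiniteIndex ∧ ∀ K ∈ Ks N, M ≤ K := by
  obtain ⟨M, h1, h2, h3⟩ := exists_inf (Ks_finite N).toFinset fun K hK => by
    obtain ⟨_, k, _, φ, rfl⟩ := (Ks_finite N).mem_toFinset.1 hK
    exact ⟨inferInstance, inferInstance⟩
  exact ⟨M, h1, h2, fun K hK => h3 K ((Ks_finite N).mem_toFinset.2 hK)⟩

theorem ker_comp {G H : Type*} [Group G] [Group H] (φ : F →* G) {i : G →* H}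
    (hi : Function.Injective i) : (i.comp φ).ker = φ.ker := by
  ext x
  rw [MonoidHom.mem_ker, MonoidHom.mem_ker, MonoidHom.comp_apply, map_eq_one_iff i hi]

theorem ker_mem_Ks {N : ℕ} {G : Type*} [Group G] [Finite G] [IsSimpleGroup G]
    (hc : ¬ ∀ a b : G, a * b = b * a) (hG : Nat.card G ≤ N) {φ : F →* G}
    (hφ : Function.Surjective φ) : φ.ker ∈ Ks N := by
  refine ⟨top_ker hc hφ, Nat.card G, hG,
    (((Finite.equivFin G).permCongrHom.toMonoidHom.comp (MulAction.toPermHom G G)).comp φ), ?_⟩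
  symm
  refine ker_comp φ ?_
  exact (Finite.equivFin G).permCongrHom.injective.comp (MulAction.toPerm_injective)

theorem ker_mem_Ks_alt {N n : ℕ} (hn : n ≤ N) (h5 : 5 ≤ n) {φ : F →* alternatingGroup (Fin n)}
    (hφ : Function.Surjective φ) : φ.ker ∈ Ks N := by
  have hs : IsSimpleGroup (alternatingGroup (Fin n)) :=
    alternatingGroup.isSimpleGroup (by simpa using h5)
  have hc : ¬ ∀ a b : alternatingGroup (Fin n), a * b = b * a := by
    intro hcon
    have h1 : Subgroup.center (alternatingGroup (Fin n)) = ⊥ :=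
      alternatingGroup.center_eq_bot (by simpa using (by omega : 4 ≤ n))
    obtain ⟨x, hx⟩ := exists_ne (1 : alternatingGroup (Fin n))
    have h2 : x ∈ Subgroup.center (alternatingGroup (Fin n)) :=
      Subgroup.mem_center_iff.2 fun g => hcon g x
    rw [h1] at h2
    exact hx (Subgroup.mem_bot.1 h2)
  refine ⟨top_ker hc hφ, n, hn, (alternatingGroup (Fin n)).subtype.comp φ, ?_⟩
  exact (ker_comp φ Subtype.val_injective).symm

theorem card_alt {n : ℕ} (hn : 2 ≤ n) :
    2 * Nat.card (alternatingGroup (Fin n)) = n.factorial := by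
  have : Nontrivial (Fin n) := Fin.nontrivial_iff_two_le.2 hn
  rw [two_mul_nat_card_alternatingGroup, Nat.card_perm, Nat.card_fin]

theorem card_of_ker {G : Type*} [Group G] {φ : F →* G} (hφ : Function.Surjective φ) :
    φ.ker.index = Nat.card G :=
  Nat.card_congr (QuotientGroup.quotientKerEquivOfSurjective φ hφ).toEquiv

/-! ### The two halves -/

section Main

variable {N : ℕ} {S : Set ℕ} {w : F}

theorem tp_of_quotient {p q r : ℕ} {G : Type*} [Group G]
    (hw : ∀ K ∈ Ks N, (xyz * w ∈ K ↔ Tp S K)) (h : IsQuotient p q r w G)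
    (hK : ∀ φ : F →* G, Function.Surjective φ → φ.ker ∈ Ks N) :
    ∃ n ∈ S, 5 ≤ n ∧ ∃ φ : F →* alternatingGroup (Fin n), Function.Surjective φ ∧
      ∃ ψ : F →* G, Function.Surjective ψ ∧ ψ.ker = φ.ker := by
  obtain ⟨ξ, η, ζ, hc, _, _, _, h4⟩ := h
  have hs := lift_surj hc
  have h5 := hK _ hs
  have h6 : xyz * w ∈ (FreeGroup.lift ![ξ, η, ζ] : F →* G).ker := by
    rw [MonoidHom.mem_ker, lift_xyz, h4]
  obtain ⟨n, hn, hn5, φ, hφ, hker⟩ := (hw _ h5).1 h6
  exact ⟨n, hn, hn5, φ, hφ, _, hs, hker⟩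

theorem five_le {p q r : ℕ} (hp : p.Prime) (hq : q.Prime) (hr : r.Prime) (hpq : p ≠ q)
    (hpr : p ≠ r) (hqr : q ≠ r) (hwc : w ∈ commutator F) {n : ℕ} (h : Admissible p q r w n) :
    5 ≤ n := by
  obtain ⟨h3, h⟩ := h
  have hperf : commutator (alternatingGroup (Fin n)) = ⊤ :=
    perfect hp hq hr hpq hpr hqr hwc h
  have hnt : Nontrivial (alternatingGroup (Fin n)) :=
    alternatingGroup.nontrivial_of_three_le_card (by simpa using h3)
  by_contra hlt
  have h34 : n = 3 ∨ n = 4 := by omega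
  rcases h34 with rfl | rfl
  · have hcy : IsCyclic (alternatingGroup (Fin 3)) :=
      alternatingGroup.isCyclic_of_card_le_three (by simp)
    refine not_comm hperf fun a b => ?_
    obtain ⟨g, hg⟩ := hcy.exists_generator
    obtain ⟨i, rfl⟩ := hg a
    obtain ⟨j, rfl⟩ := hg b
    change g ^ i * g ^ j = g ^ j * g ^ i
    rw [← zpow_add, ← zpow_add, add_comm]
  · have h4 : Nat.card (Fin 4) = 4 := by simp
    have h5 := alternatingGroup.kleinFour_card_of_card_eq_four h4
    rw [alternatingGroup.kleinFour_eq_commutator h4, hperf, Subgroup.card_top] at h5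
    have h6 := card_alt (n := 4) (by norm_num)
    rw [h5] at h6
    revert h6
    decide

theorem alt_iff {p q r : ℕ} (hp : p.Prime) (hq : q.Prime) (hr : r.Prime) (hpq : p ≠ q)
    (hpr : p ≠ r) (hqr : q ≠ r) (hwc : w ∈ commutator F)
    (hw : ∀ K ∈ Ks N, (xyz * w ∈ K ↔ Tp S K)) {n : ℕ} (hn : n ≤ N) :
    Admissible p q r w n ↔ n ∈ S ∧ 5 ≤ n ∧ Generated p q r (alternatingGroup (Fin n)) := by
  constructor
  · intro h
    have h5 := five_le hp hq hr hpq hpr hqr hwc h
    obtain ⟨m, hm, hm5, φ, hφ, ψ, hψ, hker⟩ := tp_of_quotient (G := alternatingGroup (Fin n)) hw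
      h.2 (fun φ hφ => ker_mem_Ks_alt hn h5 hφ)
    have h6 : n = m := by
      have e1 := card_of_ker hψ
      have e2 := card_of_ker hφ
      rw [hker, e2] at e1
      have e3 := card_alt (n := n) (by omega)
      have e4 := card_alt (n := m) (by omega)
      rw [e1, e3] at e4
      exact (Nat.factorial_inj (by omega)).1 e4
    obtain ⟨_, ξ, η, ζ, hc, a1, a2, a3, _⟩ := h
    exact ⟨h6 ▸ hm, h5, ξ, η, ζ, hc, a1, a2, a3⟩
  · rintro ⟨hS, h5, ξ, η, ζ, hc, a1, a2, a3⟩
    refine ⟨by omega, ξ, η, ζ, hc, a1, a2, a3, ?_⟩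
    have hs := lift_surj hc
    have h6 := (hw _ (ker_mem_Ks_alt hn h5 hs)).2 ⟨n, hS, h5, _, hs, rfl⟩
    rw [MonoidHom.mem_ker, lift_xyz] at h6
    exact h6

theorem quotients {p q r : ℕ} (hp : p.Prime) (hq : q.Prime) (hr : r.Prime) (hpq : p ≠ q)
    (hpr : p ≠ r) (hqr : q ≠ r) (hwc : w ∈ commutator F)
    (hw : ∀ K ∈ Ks N, (xyz * w ∈ K ↔ Tp S K)) :
    ∀ (m : ℕ) (G : Type*) [Group G] [Finite G] [Nontrivial G], Nat.card G = m → m ≤ N →
      IsQuotient p q r w G → ∃ n ∈ S, 5 ≤ n ∧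
        ∃ f : G →* alternatingGroup (Fin n), Function.Surjective f := by
  intro m
  induction m using Nat.strong_induction_on with
  | _ m ih =>
    intro G _ _ _ hm hmN h
    by_cases hs : ∃ H : Subgroup G, H.Normal ∧ H ≠ ⊥ ∧ H ≠ ⊤
    · obtain ⟨H, hH, hb, ht⟩ := hs
      have hnt : Nontrivial (G ⧸ H) := QuotientGroup.nontrivial_iff.2 ht
      have hcard : Nat.card (G ⧸ H) < m := by
        have h1 := Subgroup.card_eq_card_quotient_mul_card_subgroup H
        have h2 : 1 < Nat.card H := (Subgroup.one_lt_card_iff_ne_bot H).2 hb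
        have h3 : 0 < Nat.card (G ⧸ H) := Nat.card_pos
        rw [← hm, h1]
        nlinarith
      obtain ⟨n, hn, h5, f, hf⟩ := ih _ hcard (G ⧸ H) rfl (by omega)
        (IsQuotient.map h (QuotientGroup.mk' H) (QuotientGroup.mk'_surjective H))
      exact ⟨n, hn, h5, f.comp (QuotientGroup.mk' H), hf.comp (QuotientGroup.mk'_surjective H)⟩
    · have hsim : IsSimpleGroup G := ⟨fun H hH => by
        by_contra hcon
        push Not at hcon
        exact hs ⟨H, hH, hcon.1, hcon.2⟩⟩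
      have hc := not_comm (perfect hp hq hr hpq hpr hqr hwc h)
      obtain ⟨n, hn, h5, φ, hφ, ψ, hψ, hker⟩ := tp_of_quotient hw h
        (fun φ hφ => ker_mem_Ks hc (hm ▸ hmN) hφ)
      refine ⟨n, hn, h5, ?_⟩
      let e : G ≃* alternatingGroup (Fin n) :=
        (QuotientGroup.quotientKerEquivOfSurjective ψ hψ).symm.trans
          ((QuotientGroup.quotientMulEquivOfEq hker).trans
            (QuotientGroup.quotientKerEquivOfSurjective φ hφ))
      exact ⟨e.toMonoidHom, e.surjective⟩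

end Main

/-- **Theorem Window.** -/
theorem window (N : ℕ) (S : Set ℕ) :
    ∃ u ∈ commutator F, ∃ M : Subgroup F, M.Normal ∧ M.FiniteIndex ∧
      ∀ w ∈ commutator F, u⁻¹ * w ∈ M → ∀ p q r : ℕ, p.Prime → q.Prime → r.Prime →
        p ≠ q → p ≠ r → q ≠ r →
          (∀ n ≤ N, Admissible p q r w n ↔
            n ∈ S ∧ 5 ≤ n ∧ Generated p q r (alternatingGroup (Fin n))) ∧
          ∀ (G : Type*) [Group G] [Finite G] [Nontrivial G], Nat.card G ≤ N →
            IsQuotient p q r w G → ∃ n ∈ S, 5 ≤ n ∧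
              ∃ f : G →* alternatingGroup (Fin n), Function.Surjective f := by
  obtain ⟨u, hu, h⟩ := exists_word N S
  obtain ⟨M, h1, h2, h3⟩ := exists_M N
  refine ⟨u, hu, M, h1, h2, fun w hw hM p q r hp hq hr hpq hpr hqr => ?_⟩
  have hw' : ∀ K ∈ Ks N, (xyz * w ∈ K ↔ Tp S K) := by
    intro K hK
    rw [← h K hK]
    have h4 : xyz * w = xyz * u * (u⁻¹ * w) := by group
    have h5 : u⁻¹ * w ∈ K := h3 K hK hM
    rw [h4]
    exact Subgroup.mul_mem_cancel_right K h5
  exact ⟨fun n hn => alt_iff hp hq hr hpq hpr hqr hw hw' hn,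
    fun G _ _ _ hG hQ => quotients hp hq hr hpq hpr hqr hw hw' _ G rfl hG hQ⟩

end Pool.Agent.W_MP_73c65d_al.Win27
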